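import Pool.Agent.Helper853.UM.Main

set_option autoImplicit false

namespace Pool.Agent.Helper853.UM

open Metric MeasureTheory Module Filter Topology

/-- the disc automorphism moving `a` to `0` -/
noncomputable def mob (a w : ℂ) : ℂ := (w - a) / (1 - (starRingEnd ℂ) a * w)

lemma mob_den {a w : ℂ} (ha : ‖a‖ < 1) (hw : ‖w‖ ≤ 1) :
    1 - ‖a‖ ≤ ‖1 - (starRingEnd ℂ) a * w‖ := by
  have h := norm_sub_norm_le (1 : ℂ) ((starRingEnd ℂ) a * w)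
  rw [norm_one, norm_mul, Complex.norm_conj] at h
  have : ‖a‖ * ‖w‖ ≤ ‖a‖ * 1 := by gcongr
  linarith

lemma mob_den_ne {a w : ℂ} (ha : ‖a‖ < 1) (hw : ‖w‖ ≤ 1) : 1 - (starRingEnd ℂ) a * w ≠ 0 := by
  intro h
  have := mob_den ha hw
  rw [h, norm_zero] at this
  linarith

lemma mob_key (a w : ℂ) : ‖1 - (starRingEnd ℂ) a * w‖ ^ 2 - ‖w - a‖ ^ 2
    = (1 - ‖a‖ ^ 2) * (1 - ‖w‖ ^ 2) := by
  rw [← Complex.normSq_eq_norm_sq, ← Complex.normSq_eq_norm_sq, ← Complex.normSq_eq_norm_sq,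
    ← Complex.normSq_eq_norm_sq, Complex.normSq_apply, Complex.normSq_apply, Complex.normSq_apply,
    Complex.normSq_apply]
  simp
  ring

lemma mob_norm_le {a w : ℂ} (ha : ‖a‖ < 1) (hw : ‖w‖ ≤ 1) : ‖mob a w‖ ≤ 1 := by
  unfold mob
  rw [norm_div]
  apply div_le_one_of_le₀ _ (norm_nonneg _)
  have h := mob_key a w
  have h1 : 0 ≤ (1 - ‖a‖ ^ 2) * (1 - ‖w‖ ^ 2) := by
    have := norm_nonneg a
    have := norm_nonneg w
    apply mul_nonneg <;> nlinarith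
  apply abs_le_of_sq_le_sq' _ (norm_nonneg _) |>.2
  linarith

lemma mob_norm_one {a w : ℂ} (ha : ‖a‖ < 1) (hw : ‖w‖ = 1) : ‖mob a w‖ = 1 := by
  unfold mob
  rw [norm_div]
  have h := mob_key a w
  rw [hw] at h
  have hne : ‖1 - (starRingEnd ℂ) a * w‖ ≠ 0 := norm_ne_zero_iff.2 (mob_den_ne ha hw.le)
  have h2 : ‖w - a‖ ^ 2 = ‖1 - (starRingEnd ℂ) a * w‖ ^ 2 := by nlinarith
  have h3 : ‖w - a‖ = ‖1 - (starRingEnd ℂ) a * w‖ := by
    rwa [pow_left_inj₀ (norm_nonneg _) (norm_nonneg _) (by norm_num)] at h2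
  rw [h3, div_self hne]

lemma mob_lip {a w w' : ℂ} (ha : ‖a‖ < 1) (hw : ‖w‖ ≤ 1) (hw' : ‖w'‖ ≤ 1) :
    ‖mob a w - mob a w'‖ ≤ (1 / (1 - ‖a‖) ^ 2) * ‖w - w'‖ := by
  have h1 := mob_den ha hw
  have h2 := mob_den ha hw'
  have n1 := mob_den_ne ha hw
  have n2 := mob_den_ne ha hw'
  have hpos : 0 < 1 - ‖a‖ := by linarith
  have e : mob a w - mob a w' = ((1 - (starRingEnd ℂ) a * a) * (w - w')) /
      ((1 - (starRingEnd ℂ) a * w) * (1 - (starRingEnd ℂ) a * w')) := by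
    unfold mob
    rw [div_sub_div _ _ n1 n2]
    congr 1
    ring
  rw [e, norm_div, norm_mul, norm_mul]
  have h3 : ‖1 - (starRingEnd ℂ) a * a‖ ≤ 1 := by
    have : 1 - (starRingEnd ℂ) a * a = ((1 - ‖a‖ ^ 2 : ℝ) : ℂ) := by
      rw [mul_comm, Complex.mul_conj, Complex.normSq_eq_norm_sq]; push_cast; ring
    rw [this, Complex.norm_real, Real.norm_eq_abs, abs_le]
    have := norm_nonneg a
    constructor <;> nlinarith
  calc ‖1 - (starRingEnd ℂ) a * a‖ * ‖w - w'‖ / (‖1 - (starRingEnd ℂ) a * w‖ * ‖1 - (starRingEnd ℂ) a * w'‖)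
      ≤ 1 * ‖w - w'‖ / ((1 - ‖a‖) * (1 - ‖a‖)) := by gcongr
    _ = _ := by ring

/-- admissible functions of some positive Lipschitz order, with large unimodular set -/
theorem exists_adm (E : Type*) [NormedAddCommGroup E] [InnerProductSpace ℂ E] [MeasurableSpace E]
    [BorelSpace E] [FiniteDimensional ℂ E] [Nontrivial E] :
    ∃ t : ℝ, 0 < t ∧ t ≤ 1 ∧ ∀ (μ : Measure (sphere (0 : E) 1)) [IsFiniteMeasure μ] (ε : ℝ), 0 < ε → ε ≤ 1 →
      ∃ f : E → ℂ, ContinuousOn f (closedBall (0 : E) 1) ∧ DifferentiableOn ℂ f (ball (0 : E) 1) ∧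
        (∃ C : ℝ, 0 ≤ C ∧ ∀ z w : E, ‖z‖ ≤ 1 → ‖w‖ ≤ 1 → ‖f z - f w‖ ≤ C * ‖z - w‖ ^ t) ∧
        (∀ z : E, ‖z‖ ≤ 1 → ‖f z‖ ≤ 1) ∧ f 0 = 0 ∧
        μ.real {x : sphere (0 : E) 1 | ‖f x‖ ≠ 1} ≤ ε * μ.real Set.univ := by
  obtain ⟨t, ht0, ht1, H⟩ := exists_F E
  refine ⟨t, ht0, ht1, ?_⟩
  intro μ _ ε hε hε1
  obtain ⟨f, hfc, hfd, ⟨C, hC, hfL⟩, hf1, hf0, hfm⟩ := H μ ε hε hε1
  set a := f 0 with ha
  have hpos : 0 < 1 - ‖a‖ := by linarith
  refine ⟨fun z => mob a (f z), ?_, ?_, ⟨1 / (1 - ‖a‖) ^ 2 * C, by positivity, ?_⟩, ?_, ?_, ?_⟩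
  · unfold mob
    apply ContinuousOn.div (hfc.sub continuousOn_const)
      (continuousOn_const.sub (continuousOn_const.mul hfc))
    intro z hz
    rw [mem_closedBall_zero_iff] at hz
    exact mob_den_ne hf0 (hf1 z hz)
  · intro z hz
    have hz' : ‖z‖ ≤ 1 := by rw [mem_ball_zero_iff] at hz; exact hz.le
    have hd := hfd z hz
    have h1 : DifferentiableWithinAt ℂ (fun z => 1 - (starRingEnd ℂ) a * f z) (ball (0 : E) 1) z :=
      (hd.const_mul _).const_sub _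
    have h2 := h1.fun_inv (mob_den_ne hf0 (hf1 z hz'))
    have h3 := (hd.sub_const a).mul h2
    exact h3
  · intro z w hz hw
    calc ‖mob a (f z) - mob a (f w)‖ ≤ (1 / (1 - ‖a‖) ^ 2) * ‖f z - f w‖ :=
          mob_lip hf0 (hf1 z hz) (hf1 w hw)
      _ ≤ (1 / (1 - ‖a‖) ^ 2) * (C * ‖z - w‖ ^ t) := by
          have := hfL z w hz hw
          gcongr
      _ = _ := by ring
  · intro z hz
    exact mob_norm_le hf0 (hf1 z hz)
  · simp only [mob]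
    rw [← ha, sub_self, zero_div]
  · refine le_trans (measureReal_mono ?_ (measure_ne_top _ _)) hfm
    intro x hx h
    apply hx
    exact mob_norm_one hf0 h

end Pool.Agent.Helper853.UM
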