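import Mathlib

set_option autoImplicit false

namespace Pool.Agent.Helper853.UM

open Metric MeasureTheory Module

variable {E : Type*} [NormedAddCommGroup E] [InnerProductSpace ℂ E]

/-- The nonisotropic quasi-distance `|1 - <x,y>|`. -/
noncomputable def dd (x y : E) : ℝ := ‖(1 : ℂ) - inner ℂ x y‖

lemma dd_nonneg (x y : E) : 0 ≤ dd x y := norm_nonneg _

lemma dd_comm (x y : E) : dd x y = dd y x := by
  unfold dd
  rw [← inner_conj_symm x y, ← Complex.norm_conj]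
  simp

lemma dd_self {x : E} (hx : ‖x‖ = 1) : dd x x = 0 := by
  unfold dd
  rw [inner_self_eq_norm_sq_to_K, hx]
  simp

lemma dd_le_two {x y : E} (hx : ‖x‖ = 1) (hy : ‖y‖ ≤ 1) : dd x y ≤ 2 := by
  unfold dd
  have h1 : ‖inner ℂ x y‖ ≤ 1 := by
    calc ‖inner ℂ x y‖ ≤ ‖x‖ * ‖y‖ := norm_inner_le_norm x y
      _ ≤ 1 := by rw [hx]; linarith
  calc ‖(1 : ℂ) - inner ℂ x y‖ ≤ ‖(1 : ℂ)‖ + ‖inner ℂ x y‖ := norm_sub_le _ _
    _ ≤ 2 := by rw [norm_one]; linarith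

lemma norm_sub_sq_le_dd {x y : E} (hx : ‖x‖ = 1) (hy : ‖y‖ = 1) :
    ‖x - y‖ ^ 2 ≤ 2 * dd x y := by
  rw [norm_sub_sq (𝕜 := ℂ), hx, hy]
  unfold dd
  have h := Complex.abs_re_le_norm ((1 : ℂ) - inner ℂ x y)
  have h2 := le_abs_self ((1 : ℂ) - inner ℂ x y).re
  rw [Complex.sub_re, Complex.one_re] at h2
  simp only [Complex.sub_re, Complex.one_re] at h
  have h3 : RCLike.re (inner ℂ x y) = (inner ℂ x y : ℂ).re := rfl
  rw [h3]
  linarith

lemma norm_sub_le_sqrt_dd {x y : E} (hx : ‖x‖ = 1) (hy : ‖y‖ = 1) :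
    ‖x - y‖ ≤ Real.sqrt (2 * dd x y) := by
  apply Real.le_sqrt_of_sq_le
  exact norm_sub_sq_le_dd hx hy

/-- variation of the pairing along the sphere -/
lemma inner_var {ζ x y : E} (hζ : ‖ζ‖ = 1) (hx : ‖x‖ = 1) (hy : ‖y‖ = 1) :
    ‖inner ℂ ζ x - inner ℂ ζ y‖ ≤ dd x y + 2 * Real.sqrt (dd ζ y) * Real.sqrt (dd x y) := by
  have e1 : inner ℂ ζ x - inner ℂ ζ y = inner ℂ (ζ - y) (x - y) + (inner ℂ y x - 1) := by
    have : inner ℂ y y = (1 : ℂ) := by
      rw [inner_self_eq_norm_sq_to_K, hy]; simp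
    rw [inner_sub_left, inner_sub_right, inner_sub_right, this]
    ring
  rw [e1]
  have h1 : ‖inner ℂ (ζ - y) (x - y)‖ ≤ ‖ζ - y‖ * ‖x - y‖ := norm_inner_le_norm _ _
  have h2 := norm_sub_le_sqrt_dd hζ hy
  have h3 := norm_sub_le_sqrt_dd hx hy
  have h4 : ‖inner ℂ y x - (1 : ℂ)‖ = dd x y := by
    rw [norm_sub_rev, dd_comm]; rfl
  have h5 : ‖ζ - y‖ * ‖x - y‖ ≤ Real.sqrt (2 * dd ζ y) * Real.sqrt (2 * dd x y) :=
    mul_le_mul h2 h3 (norm_nonneg _) (Real.sqrt_nonneg _)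
  have h6 : Real.sqrt (2 * dd ζ y) * Real.sqrt (2 * dd x y)
      = 2 * Real.sqrt (dd ζ y) * Real.sqrt (dd x y) := by
    rw [Real.sqrt_mul (by norm_num), Real.sqrt_mul (by norm_num)]
    have : Real.sqrt 2 * Real.sqrt 2 = 2 := Real.mul_self_sqrt (by norm_num)
    calc Real.sqrt 2 * Real.sqrt (dd ζ y) * (Real.sqrt 2 * Real.sqrt (dd x y))
        = (Real.sqrt 2 * Real.sqrt 2) * Real.sqrt (dd ζ y) * Real.sqrt (dd x y) := by ring
      _ = _ := by rw [this]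
  calc ‖inner ℂ (ζ - y) (x - y) + (inner ℂ y x - 1)‖
      ≤ ‖inner ℂ (ζ - y) (x - y)‖ + ‖inner ℂ y x - (1 : ℂ)‖ := norm_add_le _ _
    _ ≤ 2 * Real.sqrt (dd ζ y) * Real.sqrt (dd x y) + dd x y := by
        rw [h4]; linarith
    _ = _ := by ring

/-- triangle inequality for `sqrt dd` -/
lemma sqrt_dd_triangle {x y z : E} (hx : ‖x‖ = 1) (hy : ‖y‖ = 1) (hz : ‖z‖ = 1) :
    Real.sqrt (dd x z) ≤ Real.sqrt (dd x y) + Real.sqrt (dd y z) := by
  apply Real.sqrt_le_iff.2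
  refine ⟨by positivity, ?_⟩
  have h := inner_var hx hz hy
  -- ‖<x,z> - <x,y>‖ ≤ dd z y + 2 sqrt(dd x y) sqrt (dd z y)
  have e : (1 : ℂ) - inner ℂ x z = ((1 : ℂ) - inner ℂ x y) - (inner ℂ x z - inner ℂ x y) := by ring
  have h1 : dd x z ≤ dd x y + (dd z y + 2 * Real.sqrt (dd x y) * Real.sqrt (dd z y)) := by
    unfold dd at *
    rw [e]
    exact (norm_sub_le _ _).trans (by linarith)
  rw [dd_comm z y] at h1
  have h2 := Real.sq_sqrt (dd_nonneg x y)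
  have h3 := Real.sq_sqrt (dd_nonneg y z)
  nlinarith [h1, h2, h3]

section pack

variable {F : Type*} [NormedAddCommGroup F] [NormedSpace ℝ F] [FiniteDimensional ℝ F]

/-- volumetric packing bound -/
lemma card_le_pack (s : Finset F) {R δ : ℝ} (hR : 0 ≤ R) (hδ : 0 < δ)
    (hs : ∀ c ∈ s, ‖c‖ ≤ R)
    (h : ∀ c ∈ s, ∀ d ∈ s, c ≠ d → 2 * δ ≤ ‖c - d‖) :
    (s.card : ℝ) ≤ ((R + δ) / δ) ^ finrank ℝ F := by
  borelize F
  let μ : Measure F := Measure.addHaar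
  have ρpos : 0 < R + δ := by linarith
  set A := ⋃ c ∈ s, ball (c : F) δ with hA
  have Dj : Set.Pairwise (s : Set F) (Function.onFun Disjoint fun c => ball (c : F) δ) := by
    rintro c hc d hd hcd
    apply ball_disjoint_ball
    rw [dist_eq_norm]
    have := h c hc d hd hcd
    linarith
  have A_subset : A ⊆ ball (0 : F) (R + δ) := by
    refine Set.iUnion₂_subset fun x hx => ?_
    apply ball_subset_ball'
    rw [dist_zero_right]
    have := hs x hx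
    linarith
  have I : (s.card : ENNReal) * ENNReal.ofReal (δ ^ finrank ℝ F) * μ (ball 0 1) ≤
      ENNReal.ofReal ((R + δ) ^ finrank ℝ F) * μ (ball 0 1) :=
    calc
      (s.card : ENNReal) * ENNReal.ofReal (δ ^ finrank ℝ F) * μ (ball 0 1) = μ A := by
        rw [hA, measure_biUnion_finset Dj fun c _ => measurableSet_ball]
        simp only [μ.addHaar_ball_of_pos _ hδ]
        simp only [Finset.sum_const, nsmul_eq_mul, mul_assoc]
      _ ≤ μ (ball (0 : F) (R + δ)) := measure_mono A_subset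
      _ = ENNReal.ofReal ((R + δ) ^ finrank ℝ F) * μ (ball 0 1) := by
        simp only [μ.addHaar_ball_of_pos _ ρpos]
  have J : (s.card : ENNReal) * ENNReal.ofReal (δ ^ finrank ℝ F)
      ≤ ENNReal.ofReal ((R + δ) ^ finrank ℝ F) := by
    have h1 : μ (ball (0 : F) 1) ≠ 0 := (measure_ball_pos _ _ zero_lt_one).ne'
    have h2 : μ (ball (0 : F) 1) ≠ ⊤ := measure_ball_lt_top.ne
    exact (ENNReal.mul_le_mul_iff_left h1 h2).1 I
  have K : (s.card : ℝ) * δ ^ finrank ℝ F ≤ (R + δ) ^ finrank ℝ F := by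
    have := ENNReal.toReal_le_of_le_ofReal (pow_nonneg ρpos.le _) J
    rw [ENNReal.toReal_mul, ENNReal.toReal_natCast, ENNReal.toReal_ofReal (by positivity)] at this
    exact this
  rw [div_pow, le_div_iff₀ (by positivity)]
  exact K

end pack

/-- the chart at `z` at scale `t` -/
noncomputable def chart (z : E) (t : ℝ) (ζ : E) : ℂ × E :=
  (((1 / t : ℝ) : ℂ) * (inner ℂ z ζ - 1), ((1 / Real.sqrt t : ℝ) : ℂ) • (ζ - (inner ℂ z ζ : ℂ) • z))

lemma perp_norm_sq {z ζ : E} (hz : ‖z‖ = 1) (hζ : ‖ζ‖ = 1) :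
    ‖ζ - (inner ℂ z ζ : ℂ) • z‖ ^ 2 ≤ 2 * dd z ζ := by
  have h1 : ‖ζ - (inner ℂ z ζ : ℂ) • z‖ ^ 2 = 1 - ‖inner ℂ z ζ‖ ^ 2 := by
    rw [norm_sub_sq (𝕜 := ℂ), hζ, norm_smul, hz, inner_smul_right]
    have : (inner ℂ z ζ * inner ℂ ζ z : ℂ) = ((‖inner ℂ z ζ‖ ^ 2 : ℝ) : ℂ) := by
      rw [← inner_conj_symm ζ z, Complex.mul_conj, Complex.normSq_eq_norm_sq]
    rw [this]
    have h3 : RCLike.re (((‖inner ℂ z ζ‖ ^ 2 : ℝ) : ℂ)) = ‖inner ℂ z ζ‖ ^ 2 := Complex.ofReal_re _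
    rw [h3]
    ring
  rw [h1]
  have h2 : ‖inner ℂ z ζ‖ ≤ 1 := by
    calc ‖inner ℂ z ζ‖ ≤ ‖z‖ * ‖ζ‖ := norm_inner_le_norm z ζ
      _ = 1 := by rw [hz, hζ]; norm_num
  have h3 : 1 - ‖inner ℂ z ζ‖ ≤ dd z ζ := by
    unfold dd
    have := norm_sub_norm_le (1 : ℂ) (inner ℂ z ζ)
    rw [norm_one] at this
    exact this
  have h4 : 0 ≤ ‖inner ℂ z ζ‖ := norm_nonneg _
  nlinarith [h2, h3, h4]

lemma chart_norm {z ζ : E} {t : ℝ} (ht : 0 < t) (hz : ‖z‖ = 1) (hζ : ‖ζ‖ = 1) (h : dd z ζ ≤ t) :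
    ‖chart z t ζ‖ ≤ 2 := by
  unfold chart
  rw [Prod.norm_def]
  apply max_le
  · simp only
    rw [norm_mul, Complex.norm_real, Real.norm_of_nonneg (by positivity), norm_sub_rev]
    have : ‖(1 : ℂ) - inner ℂ z ζ‖ ≤ t := h
    calc 1 / t * ‖(1 : ℂ) - inner ℂ z ζ‖ ≤ 1 / t * t := by gcongr
      _ = 1 := by field_simp
      _ ≤ 2 := by norm_num
  · simp only
    rw [norm_smul, Complex.norm_real, Real.norm_of_nonneg (by positivity)]
    have h1 := perp_norm_sq hz hζ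
    have h2 : ‖ζ - (inner ℂ z ζ : ℂ) • z‖ ≤ 2 * Real.sqrt t := by
      apply abs_le_of_sq_le_sq' _ (by positivity) |>.2
      rw [mul_pow, Real.sq_sqrt ht.le]
      linarith
    have h3 : 0 < Real.sqrt t := Real.sqrt_pos.2 ht
    calc 1 / Real.sqrt t * ‖ζ - (inner ℂ z ζ : ℂ) • z‖ ≤ 1 / Real.sqrt t * (2 * Real.sqrt t) := by gcongr
      _ = 2 := by field_simp

lemma dd_le_chart {z ζ η : E} {t : ℝ} (ht : 0 < t) (hz : ‖z‖ = 1) (hζ : ‖ζ‖ = 1)
    (h : dd z ζ ≤ t) : dd ζ η ≤ 3 * t * ‖chart z t ζ - chart z t η‖ ∨ ‖ζ‖ ≠ 1 := by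
  left
  set v : E := ζ - (inner ℂ z ζ : ℂ) • z with hv
  set w : E := η - (inner ℂ z η : ℂ) • z with hw
  have hzz : inner ℂ z z = (1 : ℂ) := by
    rw [inner_self_eq_norm_sq_to_K, hz]; simp
  have hζζ : inner ℂ ζ ζ = (1 : ℂ) := by
    rw [inner_self_eq_norm_sq_to_K, hζ]; simp
  have hvz : inner ℂ v z = (0 : ℂ) := by
    rw [hv, inner_sub_left, inner_smul_left, hzz, inner_conj_symm]; ring
  have hzv : inner ℂ z v = (0 : ℂ) := by
    rw [hv, inner_sub_right, inner_smul_right, hzz]; ring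
  have hzw : inner ℂ z w = (0 : ℂ) := by
    rw [hw, inner_sub_right, inner_smul_right, hzz]; ring
  have e1 : (1 : ℂ) - inner ℂ ζ η
      = (starRingEnd ℂ) (inner ℂ z ζ) * (inner ℂ z ζ - inner ℂ z η) + inner ℂ v (v - w) := by
    have e2 : ζ = (inner ℂ z ζ : ℂ) • z + v := by rw [hv]; abel
    have e3 : η = (inner ℂ z η : ℂ) • z + w := by rw [hw]; abel
    have e4 : (1 : ℂ) - inner ℂ ζ η = inner ℂ ζ (ζ - η) := by rw [inner_sub_right, hζζ]
    have e5 : ζ - η = (inner ℂ z ζ - inner ℂ z η : ℂ) • z + (v - w) := by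
      rw [hv, hw, sub_smul]; abel
    rw [e4, e5]
    have key : ∀ (a b : ℂ), inner ℂ (a • z + v) ((a - b) • z + (v - w))
        = (starRingEnd ℂ) a * (a - b) + inner ℂ v (v - w) := by
      intro a b
      have h1 : inner ℂ z (v - w) = (0 : ℂ) := by rw [inner_sub_right, hzv, hzw]; ring
      rw [inner_add_left, inner_add_right, inner_add_right, inner_smul_left, inner_smul_right, hzz,
        inner_smul_left, h1, inner_smul_right v z, hvz]
      ring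
    have h2 := key (inner ℂ z ζ) (inner ℂ z η)
    rw [← e2] at h2
    exact h2
  have hst : 0 < Real.sqrt t := Real.sqrt_pos.2 ht
  have hsq : Real.sqrt t * Real.sqrt t = t := Real.mul_self_sqrt ht.le
  -- components of the chart difference
  have c1 : ‖inner ℂ z ζ - inner ℂ z η‖ ≤ t * ‖chart z t ζ - chart z t η‖ := by
    have : ‖(chart z t ζ - chart z t η).1‖ ≤ ‖chart z t ζ - chart z t η‖ := norm_fst_le _
    have e : (chart z t ζ - chart z t η).1 = ((1 / t : ℝ) : ℂ) * (inner ℂ z ζ - inner ℂ z η) := by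
      simp only [chart, Prod.fst_sub]; ring
    rw [e, norm_mul, Complex.norm_real, Real.norm_of_nonneg (by positivity)] at this
    calc ‖inner ℂ z ζ - inner ℂ z η‖ = t * (1 / t * ‖inner ℂ z ζ - inner ℂ z η‖) := by field_simp
      _ ≤ t * ‖chart z t ζ - chart z t η‖ := by gcongr
  have c2 : ‖v - w‖ ≤ Real.sqrt t * ‖chart z t ζ - chart z t η‖ := by
    have : ‖(chart z t ζ - chart z t η).2‖ ≤ ‖chart z t ζ - chart z t η‖ := norm_snd_le _
    have e : (chart z t ζ - chart z t η).2 = ((1 / Real.sqrt t : ℝ) : ℂ) • (v - w) := by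
      simp only [chart, Prod.snd_sub, hv, hw, smul_sub]
    rw [e, norm_smul, Complex.norm_real, Real.norm_of_nonneg (by positivity)] at this
    calc ‖v - w‖ = Real.sqrt t * (1 / Real.sqrt t * ‖v - w‖) := by field_simp
      _ ≤ _ := by gcongr
  have hv2 : ‖v‖ ≤ 2 * Real.sqrt t := by
    have h1 := perp_norm_sq hz hζ
    apply abs_le_of_sq_le_sq' _ (by positivity) |>.2
    rw [mul_pow, Real.sq_sqrt ht.le]
    rw [← hv] at h1
    linarith
  have hz1 : ‖(starRingEnd ℂ) (inner ℂ z ζ)‖ ≤ 1 := by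
    rw [Complex.norm_conj]
    calc ‖inner ℂ z ζ‖ ≤ ‖z‖ * ‖ζ‖ := norm_inner_le_norm z ζ
      _ = 1 := by rw [hz, hζ]; norm_num
  unfold dd
  rw [e1]
  set X := ‖chart z t ζ - chart z t η‖ with hX
  have hX0 : 0 ≤ X := norm_nonneg _
  calc ‖(starRingEnd ℂ) (inner ℂ z ζ) * (inner ℂ z ζ - inner ℂ z η) + inner ℂ v (v - w)‖
      ≤ ‖(starRingEnd ℂ) (inner ℂ z ζ) * (inner ℂ z ζ - inner ℂ z η)‖ + ‖inner ℂ v (v - w)‖ :=
        norm_add_le _ _
    _ ≤ 1 * (t * X) + ‖v‖ * ‖v - w‖ := by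
        gcongr
        · rw [norm_mul]
          exact mul_le_mul hz1 c1 (norm_nonneg _) (by norm_num)
        · exact norm_inner_le_norm _ _
    _ ≤ 1 * (t * X) + (2 * Real.sqrt t) * (Real.sqrt t * X) := by gcongr
    _ = 3 * t * X := by
        have : (2 * Real.sqrt t) * (Real.sqrt t * X) = 2 * t * X := by
          calc (2 * Real.sqrt t) * (Real.sqrt t * X) = 2 * (Real.sqrt t * Real.sqrt t) * X := by ring
            _ = _ := by rw [hsq]
        rw [this]; ring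

/-- packing on the sphere -/
lemma pack_sphere [FiniteDimensional ℂ E] (Z : Finset E) {z : E} (hz : ‖z‖ = 1) {s t : ℝ}
    (hs : 0 < s) (ht : 0 < t) (hZ : ∀ ζ ∈ Z, ‖ζ‖ = 1)
    (hsep : ∀ ζ ∈ Z, ∀ η ∈ Z, ζ ≠ η → s ≤ dd ζ η) (hd : ∀ ζ ∈ Z, dd z ζ ≤ t) :
    (Z.card : ℝ) ≤ (1 + 12 * (t / s)) ^ finrank ℝ (ℂ × E) := by
  classical
  have : FiniteDimensional ℝ E := FiniteDimensional.complexToReal E
  have hinj : Set.InjOn (chart z t) (Z : Set E) := by
    intro ζ hζ η hη heq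
    by_contra hne
    have h1 := hsep ζ hζ η hη hne
    rcases dd_le_chart (η := η) ht hz (hZ ζ hζ) (hd ζ hζ) with h2 | h2
    · rw [heq, sub_self, norm_zero, mul_zero] at h2
      linarith
    · exact h2 (hZ ζ hζ)
  have hcard : (Z.image (chart z t)).card = Z.card := Finset.card_image_of_injOn hinj
  rw [← hcard]
  have key := card_le_pack (F := ℂ × E) (Z.image (chart z t)) (R := 2) (δ := s / (6 * t))
    (by norm_num) (by positivity) ?_ ?_
  · refine key.trans (le_of_eq ?_)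
    congr 1
    field_simp
    ring
  · intro c hc
    obtain ⟨ζ, hζ, rfl⟩ := Finset.mem_image.1 hc
    exact chart_norm ht hz (hZ ζ hζ) (hd ζ hζ)
  · intro c hc d hd' hne
    obtain ⟨ζ, hζ, rfl⟩ := Finset.mem_image.1 hc
    obtain ⟨η, hη, rfl⟩ := Finset.mem_image.1 hd'
    have hne' : ζ ≠ η := fun h => hne (by rw [h])
    have h1 := hsep ζ hζ η hη hne'
    rcases dd_le_chart (η := η) ht hz (hZ ζ hζ) (hd ζ hζ) with h2 | h2
    · have h3 : s ≤ 3 * t * ‖chart z t ζ - chart z t η‖ := h1.trans h2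
      have : 2 * (s / (6 * t)) = s / (3 * t) := by field_simp; ring
      rw [this, div_le_iff₀ (by positivity)]
      linarith
    · exact absurd (hZ ζ hζ) h2

end Pool.Agent.Helper853.UM
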