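import Pool.Agent.Helper853.UM.Geo

set_option autoImplicit false

namespace Pool.Agent.Helper853.UM

open Metric MeasureTheory Module

variable {E : Type*} [NormedAddCommGroup E] [InnerProductSpace ℂ E]

/-- the bump `(s / (s + 1 - <z,ζ>))^m` -/
noncomputable def Kn (m : ℕ) (s : ℝ) (ζ z : E) : ℂ :=
  ((s : ℂ) / ((s : ℂ) + (1 - inner ℂ ζ z))) ^ m

lemma re_one_sub_nonneg {ζ z : E} (hζ : ‖ζ‖ = 1) (hz : ‖z‖ ≤ 1) :
    0 ≤ ((1 : ℂ) - inner ℂ ζ z).re := by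
  have h1 : ‖inner ℂ ζ z‖ ≤ 1 := by
    calc ‖inner ℂ ζ z‖ ≤ ‖ζ‖ * ‖z‖ := norm_inner_le_norm ζ z
      _ ≤ 1 := by rw [hζ]; linarith
  have h2 := (Complex.abs_re_le_norm (inner ℂ ζ z)).trans h1
  have h3 := (abs_le.1 h2).2
  rw [Complex.sub_re, Complex.one_re]
  linarith

lemma den_ge {s : ℝ} (_hs : 0 < s) {w : ℂ} (hw : 0 ≤ w.re) : s ≤ ‖(s : ℂ) + w‖ := by
  have := Complex.abs_re_le_norm ((s : ℂ) + w)
  have h2 := le_abs_self ((s : ℂ) + w).re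
  rw [Complex.add_re, Complex.ofReal_re] at h2
  rw [Complex.add_re, Complex.ofReal_re] at this
  linarith

lemma den_ge' {s : ℝ} (hs : 0 < s) {w : ℂ} (hw : 0 ≤ w.re) : (s + ‖w‖) / 2 ≤ ‖(s : ℂ) + w‖ := by
  have h1 : ‖(s : ℂ) + w‖ ^ 2 = s ^ 2 + 2 * s * w.re + ‖w‖ ^ 2 := by
    rw [← Complex.normSq_eq_norm_sq, ← Complex.normSq_eq_norm_sq, Complex.normSq_apply,
      Complex.normSq_apply]
    simp
    ring
  have h2 : ((s + ‖w‖) / 2) ^ 2 ≤ ‖(s : ℂ) + w‖ ^ 2 := by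
    rw [h1]
    nlinarith [sq_nonneg (s - ‖w‖), mul_nonneg hs.le hw, sq_nonneg s, sq_nonneg ‖w‖]
  exact abs_le_of_sq_le_sq' h2 (norm_nonneg _) |>.2

lemma frac_le {s : ℝ} (hs : 0 < s) {w : ℂ} (hw : 0 ≤ w.re) :
    ‖(s : ℂ) / ((s : ℂ) + w)‖ ≤ 2 / (1 + ‖w‖ / s) := by
  have h := den_ge' hs hw
  rw [norm_div, Complex.norm_real, Real.norm_of_nonneg hs.le]
  have h0 : 0 ≤ ‖w‖ := norm_nonneg _
  have e : 2 / (1 + ‖w‖ / s) = s / ((s + ‖w‖) / 2) := by field_simp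
  rw [e]
  apply div_le_div_of_nonneg_left hs.le (by positivity) h

lemma frac_le_one {s : ℝ} (hs : 0 < s) {w : ℂ} (hw : 0 ≤ w.re) :
    ‖(s : ℂ) / ((s : ℂ) + w)‖ ≤ 1 := by
  have h := den_ge hs hw
  rw [norm_div, Complex.norm_real, Real.norm_of_nonneg hs.le]
  exact div_le_one_of_le₀ h (norm_nonneg _)

lemma Kn_le {m : ℕ} {s : ℝ} (hs : 0 < s) {ζ z : E} (hζ : ‖ζ‖ = 1) (hz : ‖z‖ ≤ 1) :
    ‖Kn m s ζ z‖ ≤ 2 ^ m * ((1 + dd ζ z / s) ^ m)⁻¹ := by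
  unfold Kn
  rw [norm_pow]
  have h := frac_le hs (re_one_sub_nonneg hζ hz)
  calc _ ≤ (2 / (1 + ‖(1 : ℂ) - inner ℂ ζ z‖ / s)) ^ m := by gcongr
    _ = _ := by rw [div_pow]; rfl

lemma Kn_le_one {m : ℕ} {s : ℝ} (hs : 0 < s) {ζ z : E} (hζ : ‖ζ‖ = 1) (hz : ‖z‖ ≤ 1) :
    ‖Kn m s ζ z‖ ≤ 1 := by
  unfold Kn
  rw [norm_pow]
  exact pow_le_one₀ (norm_nonneg _) (frac_le_one hs (re_one_sub_nonneg hζ hz))

lemma pow_sub_pow_norm_le (a b : ℂ) {M : ℝ} (ha : ‖a‖ ≤ M) (hb : ‖b‖ ≤ M) (m : ℕ) :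
    ‖a ^ (m + 1) - b ^ (m + 1)‖ ≤ (m + 1) * M ^ m * ‖a - b‖ := by
  have hM : 0 ≤ M := (norm_nonneg _).trans ha
  induction m with
  | zero => simp
  | succ k ih =>
    have e : a ^ (k + 1 + 1) - b ^ (k + 1 + 1) = a * (a ^ (k + 1) - b ^ (k + 1)) + (a - b) * b ^ (k + 1) := by
      ring
    rw [e]
    calc ‖a * (a ^ (k + 1) - b ^ (k + 1)) + (a - b) * b ^ (k + 1)‖
        ≤ ‖a‖ * ‖a ^ (k + 1) - b ^ (k + 1)‖ + ‖a - b‖ * ‖b‖ ^ (k + 1) := by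
          refine (norm_add_le _ _).trans ?_
          rw [norm_mul, norm_mul, norm_pow]
      _ ≤ M * ((k + 1) * M ^ k * ‖a - b‖) + ‖a - b‖ * M ^ (k + 1) := by gcongr
      _ = _ := by push_cast; ring

/-- difference of the basic fractions -/
lemma frac_sub {s : ℝ} (hs : 0 < s) {w w' : ℂ} (hw : 0 ≤ w.re) (hw' : 0 ≤ w'.re) :
    ‖(s : ℂ) / ((s : ℂ) + w) - (s : ℂ) / ((s : ℂ) + w')‖
      = ‖w - w'‖ / s * ‖(s : ℂ) / ((s : ℂ) + w)‖ * ‖(s : ℂ) / ((s : ℂ) + w')‖ := by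
  have h1 : (s : ℂ) + w ≠ 0 := by
    intro h
    have := den_ge hs hw
    rw [h, norm_zero] at this
    linarith
  have h2 : (s : ℂ) + w' ≠ 0 := by
    intro h
    have := den_ge hs hw'
    rw [h, norm_zero] at this
    linarith
  have hs' : (s : ℂ) ≠ 0 := by exact_mod_cast hs.ne'
  have e : (s : ℂ) / ((s : ℂ) + w) - (s : ℂ) / ((s : ℂ) + w')
      = -((w - w') / (s : ℂ)) * ((s : ℂ) / ((s : ℂ) + w)) * ((s : ℂ) / ((s : ℂ) + w')) := by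
    field_simp
    ring
  rw [e, norm_mul, norm_mul, norm_neg, norm_div (w - w'), Complex.norm_real, Real.norm_of_nonneg hs.le]

lemma Kn_lip {m : ℕ} {s : ℝ} (hs : 0 < s) {ζ z w : E} (hζ : ‖ζ‖ = 1) (hz : ‖z‖ ≤ 1)
    (hw : ‖w‖ ≤ 1) :
    ‖Kn (m + 1) s ζ z - Kn (m + 1) s ζ w‖
      ≤ (m + 1) / s * ‖z - w‖ * (‖Kn (m + 1) s ζ z‖ + ‖Kn (m + 1) s ζ w‖) := by
  unfold Kn
  set a : ℂ := (s : ℂ) / ((s : ℂ) + (1 - inner ℂ ζ z)) with ha
  set b : ℂ := (s : ℂ) / ((s : ℂ) + (1 - inner ℂ ζ w)) with hb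
  have h1 := pow_sub_pow_norm_le a b (le_max_left ‖a‖ ‖b‖) (le_max_right ‖a‖ ‖b‖) m
  have h2 : ‖a - b‖ = ‖((1 : ℂ) - inner ℂ ζ z) - (1 - inner ℂ ζ w)‖ / s * ‖a‖ * ‖b‖ :=
    frac_sub hs (re_one_sub_nonneg hζ hz) (re_one_sub_nonneg hζ hw)
  have h3 : ‖((1 : ℂ) - inner ℂ ζ z) - (1 - inner ℂ ζ w)‖ ≤ ‖z - w‖ := by
    have e : ((1 : ℂ) - inner ℂ ζ z) - (1 - inner ℂ ζ w) = inner ℂ ζ (w - z) := by
      rw [inner_sub_right]; ring
    rw [e]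
    calc ‖inner ℂ ζ (w - z)‖ ≤ ‖ζ‖ * ‖w - z‖ := norm_inner_le_norm _ _
      _ = ‖z - w‖ := by rw [hζ, one_mul, norm_sub_rev]
  have ha1 : ‖a‖ ≤ 1 := frac_le_one hs (re_one_sub_nonneg hζ hz)
  have hb1 : ‖b‖ ≤ 1 := frac_le_one hs (re_one_sub_nonneg hζ hw)
  set M := max ‖a‖ ‖b‖ with hM
  have hM0 : 0 ≤ M := (norm_nonneg a).trans (le_max_left _ _)
  have hab : ‖a‖ * ‖b‖ ≤ M := by
    calc ‖a‖ * ‖b‖ ≤ M * 1 := mul_le_mul (le_max_left _ _) hb1 (norm_nonneg _) hM0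
      _ = M := mul_one _
  have hMp : M ^ (m + 1) ≤ ‖a ^ (m + 1)‖ + ‖b ^ (m + 1)‖ := by
    rw [norm_pow, norm_pow]
    rcases max_choice ‖a‖ ‖b‖ with h | h
    · rw [hM, h]
      have := pow_nonneg (norm_nonneg b) (m + 1)
      linarith
    · rw [hM, h]
      have := pow_nonneg (norm_nonneg a) (m + 1)
      linarith
  calc ‖a ^ (m + 1) - b ^ (m + 1)‖ ≤ (m + 1) * M ^ m * ‖a - b‖ := h1
    _ = (m + 1) * M ^ m * (‖((1 : ℂ) - inner ℂ ζ z) - (1 - inner ℂ ζ w)‖ / s * (‖a‖ * ‖b‖)) := by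
        rw [h2]; ring
    _ ≤ (m + 1) * M ^ m * (‖z - w‖ / s * M) := by gcongr
    _ = (m + 1) / s * ‖z - w‖ * M ^ (m + 1) := by ring
    _ ≤ _ := by gcongr

/-- variation of the bump along the sphere -/
lemma Kn_var {m : ℕ} {s : ℝ} (hs : 0 < s) {ζ z y : E} (hζ : ‖ζ‖ = 1) (hz : ‖z‖ = 1)
    (hy : ‖y‖ = 1) (hd : dd z y ≤ s) :
    ‖Kn (m + 1) s ζ z - Kn (m + 1) s ζ y‖
      ≤ 12 * (m + 1) * 6 ^ (m + 1) * Real.sqrt (dd z y / s) * ((1 + dd ζ y / s) ^ (m + 1))⁻¹ := by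
  unfold Kn
  set a : ℂ := (s : ℂ) / ((s : ℂ) + (1 - inner ℂ ζ z)) with ha
  set b : ℂ := (s : ℂ) / ((s : ℂ) + (1 - inner ℂ ζ y)) with hb
  have hre1 := re_one_sub_nonneg hζ hz.le
  have hre2 := re_one_sub_nonneg hζ hy.le
  have h2 : ‖a - b‖ = ‖((1 : ℂ) - inner ℂ ζ z) - (1 - inner ℂ ζ y)‖ / s * ‖a‖ * ‖b‖ :=
    frac_sub hs hre1 hre2
  set δ := Real.sqrt (dd z y / s) with hδ
  have hδ0 : 0 ≤ δ := Real.sqrt_nonneg _
  have hδsq : δ ^ 2 = dd z y / s := Real.sq_sqrt (div_nonneg (dd_nonneg _ _) hs.le)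
  have hδ1 : δ ≤ 1 := by
    rw [hδ]; apply Real.sqrt_le_one.2
    rw [div_le_one hs]; exact hd
  set X := dd ζ y / s with hX
  have hX0 : 0 ≤ X := div_nonneg (dd_nonneg _ _) hs.le
  have hXs : dd ζ y = X * s := by rw [hX]; field_simp
  have hds : dd z y = δ ^ 2 * s := by rw [hδsq]; field_simp
  -- |A - B| ≤ 2 δ s (1 + X)
  have h3 : ‖((1 : ℂ) - inner ℂ ζ z) - (1 - inner ℂ ζ y)‖ ≤ 2 * δ * s * (1 + X) := by
    have e : ((1 : ℂ) - inner ℂ ζ z) - (1 - inner ℂ ζ y) = -(inner ℂ ζ z - inner ℂ ζ y) := by ring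
    rw [e, norm_neg]
    refine (inner_var hζ hz hy).trans ?_
    have e1 : Real.sqrt (dd z y) = δ * Real.sqrt s := by
      rw [hds, Real.sqrt_mul (by positivity), Real.sqrt_sq hδ0]
    have e2 : Real.sqrt (dd ζ y) = Real.sqrt X * Real.sqrt s := by
      rw [hXs, Real.sqrt_mul hX0]
    rw [e1, e2, hds]
    have e3 : 2 * (Real.sqrt X * Real.sqrt s) * (δ * Real.sqrt s) = 2 * δ * s * Real.sqrt X := by
      calc _ = 2 * δ * (Real.sqrt s * Real.sqrt s) * Real.sqrt X := by ring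
        _ = _ := by rw [Real.mul_self_sqrt hs.le]
    rw [e3]
    have h5 : 2 * Real.sqrt X ≤ 1 + X := by
      have := Real.sq_sqrt hX0
      nlinarith [sq_nonneg (Real.sqrt X - 1)]
    have h6 : δ ^ 2 ≤ δ := by nlinarith
    have h7 : δ ^ 2 * s ≤ δ * s := by nlinarith
    have h8 : 0 ≤ δ * s := by positivity
    nlinarith
  -- bounds on a and b
  have hb6 : ‖b‖ ≤ 6 / (1 + X) := by
    have := frac_le hs hre2
    refine this.trans ?_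
    have e : ‖(1 : ℂ) - inner ℂ ζ y‖ / s = X := rfl
    rw [e]
    gcongr
    norm_num
  have ha6 : ‖a‖ ≤ 6 / (1 + X) := by
    have := frac_le hs hre1
    refine this.trans ?_
    have e : ‖(1 : ℂ) - inner ℂ ζ z‖ / s = dd ζ z / s := rfl
    rw [e]
    set Y := dd ζ z / s with hY
    have hY0 : 0 ≤ Y := div_nonneg (dd_nonneg _ _) hs.le
    have hYs : dd ζ z = Y * s := by rw [hY]; field_simp
    -- X ≤ 2 Y + 2
    have tri := sqrt_dd_triangle hζ hz hy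
    have h9 : X ≤ 2 * Y + 2 := by
      have e1 : Real.sqrt (dd z y) = δ * Real.sqrt s := by
        rw [hds, Real.sqrt_mul (by positivity), Real.sqrt_sq hδ0]
      rw [hYs, hXs, Real.sqrt_mul hX0, Real.sqrt_mul hY0, e1] at tri
      have hss : 0 < Real.sqrt s := Real.sqrt_pos.2 hs
      have h10 : Real.sqrt X ≤ Real.sqrt Y + δ := by
        have : Real.sqrt X * Real.sqrt s ≤ (Real.sqrt Y + δ) * Real.sqrt s := by linarith
        exact le_of_mul_le_mul_right this hss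
      have h11 := Real.sq_sqrt hX0
      have h12 := Real.sq_sqrt hY0
      have h13 := Real.sqrt_nonneg X
      have h14 := Real.sqrt_nonneg Y
      have h15 : Real.sqrt X ^ 2 ≤ (Real.sqrt Y + δ) ^ 2 := by gcongr
      nlinarith [sq_nonneg (Real.sqrt Y - δ)]
    rw [div_le_div_iff₀ (by positivity) (by positivity)]
    nlinarith
  have h1 := pow_sub_pow_norm_le a b ha6 hb6 m
  set M := 6 / (1 + X) with hM
  have hM0 : 0 ≤ M := by positivity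
  calc ‖a ^ (m + 1) - b ^ (m + 1)‖ ≤ (m + 1) * M ^ m * ‖a - b‖ := h1
    _ = (m + 1) * M ^ m * (‖((1 : ℂ) - inner ℂ ζ z) - (1 - inner ℂ ζ y)‖ / s * ‖a‖ * ‖b‖) := by
        rw [h2]
    _ ≤ (m + 1) * M ^ m * ((2 * δ * s * (1 + X)) / s * M * M) := by gcongr
    _ = 12 * (m + 1) * 6 ^ (m + 1) * δ * ((1 + X) ^ (m + 1))⁻¹ := by
        rw [hM, div_pow]
        field_simp
        ring

lemma Kn_near {m : ℕ} (hm : 0 < m) {s : ℝ} (hs : 0 < s) {ζ x : E} (hζ : ‖ζ‖ = 1) (hx : ‖x‖ = 1)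
    (hd : dd ζ x ≤ s / m) : 1 / 3 ≤ ‖Kn m s ζ x‖ := by
  unfold Kn
  rw [norm_pow, norm_div, Complex.norm_real, Real.norm_of_nonneg hs.le]
  have hm' : (0 : ℝ) < m := by exact_mod_cast hm
  have h1 : ‖(s : ℂ) + (1 - inner ℂ ζ x)‖ ≤ s * (1 + 1 / m) := by
    calc ‖(s : ℂ) + (1 - inner ℂ ζ x)‖ ≤ ‖(s : ℂ)‖ + ‖(1 : ℂ) - inner ℂ ζ x‖ := norm_add_le _ _
      _ ≤ s + s / m := by
          rw [Complex.norm_real, Real.norm_of_nonneg hs.le]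
          have : ‖(1 : ℂ) - inner ℂ ζ x‖ ≤ s / m := hd
          linarith
      _ = _ := by ring
  have h0 : 0 < ‖(s : ℂ) + (1 - inner ℂ ζ x)‖ :=
    lt_of_lt_of_le hs (den_ge hs (re_one_sub_nonneg hζ hx.le))
  have h2 : (1 + 1 / (m : ℝ))⁻¹ ≤ s / ‖(s : ℂ) + (1 - inner ℂ ζ x)‖ := by
    rw [le_div_iff₀ h0, inv_mul_le_iff₀ (by positivity)]
    linarith
  have h3 : (1 + 1 / (m : ℝ)) ^ m ≤ 3 := by
    have h4 : 1 + 1 / (m : ℝ) ≤ Real.exp (1 / m) := by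
      have := Real.add_one_le_exp (1 / (m : ℝ))
      linarith
    calc (1 + 1 / (m : ℝ)) ^ m ≤ (Real.exp (1 / m)) ^ m := by gcongr
      _ = Real.exp 1 := by
          rw [← Real.exp_nat_mul]; congr 1; field_simp
      _ ≤ 3 := by
          have := Real.exp_one_lt_d9
          linarith
  calc (1 : ℝ) / 3 ≤ ((1 + 1 / (m : ℝ)) ^ m)⁻¹ := by
        rw [one_div]
        exact inv_anti₀ (by positivity) h3
    _ = ((1 + 1 / (m : ℝ))⁻¹) ^ m := by rw [inv_pow]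
    _ ≤ _ := by gcongr

lemma Kn_zero {m : ℕ} {s : ℝ} (hs : 0 < s) (ζ : E) : ‖Kn m s ζ 0‖ ≤ s ^ m := by
  unfold Kn
  rw [inner_zero_right, norm_pow, norm_div, Complex.norm_real, Real.norm_of_nonneg hs.le]
  have : ‖(s : ℂ) + (1 - 0)‖ = s + 1 := by
    rw [sub_zero]
    have : (s : ℂ) + 1 = ((s + 1 : ℝ) : ℂ) := by push_cast; ring
    rw [this, Complex.norm_real, Real.norm_of_nonneg (by linarith)]
  rw [this]
  have h1 : s / (s + 1) ≤ s := by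
    rw [div_le_iff₀ (by linarith)]
    nlinarith
  gcongr

lemma sum_inv_sq (N : ℕ) : ∑ j ∈ Finset.range N, ((1 + (j : ℝ)) ^ 2)⁻¹ ≤ 2 := by
  have key : ∀ N : ℕ, ∑ j ∈ Finset.range (N + 1), ((1 + (j : ℝ)) ^ 2)⁻¹ ≤ 2 - 1 / ((N : ℝ) + 1) := by
    intro N
    induction N with
    | zero => norm_num
    | succ k ih =>
      rw [Finset.sum_range_succ]
      have h : ((1 + ((k + 1 : ℕ) : ℝ)) ^ 2)⁻¹ ≤ 1 / ((k : ℝ) + 1) - 1 / (((k + 1 : ℕ) : ℝ) + 1) := by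
        have e : (1 : ℝ) / (k + 1) - 1 / (((k + 1 : ℕ) : ℝ) + 1) = 1 / ((k + 1) * (k + 2)) := by
          push_cast
          field_simp
          ring
        rw [e, ← one_div]
        apply div_le_div_of_nonneg_left (by norm_num) (by positivity)
        push_cast
        nlinarith [(Nat.cast_nonneg k : (0 : ℝ) ≤ k)]
      linarith
  cases N with
  | zero => simp
  | succ n =>
    have := key n
    have h2 : (0 : ℝ) ≤ 1 / ((n : ℝ) + 1) := by positivity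
    linarith

/-- the basic sum over a separated set -/
lemma sum_sep [FiniteDimensional ℂ E] (Z : Finset E) {z : E} (hz : ‖z‖ = 1) {s : ℝ}
    (hs : 0 < s) (hZ : ∀ ζ ∈ Z, ‖ζ‖ = 1)
    (hsep : ∀ ζ ∈ Z, ∀ η ∈ Z, ζ ≠ η → s ≤ dd ζ η) :
    ∑ ζ ∈ Z, ((1 + dd z ζ / s) ^ (finrank ℝ (ℂ × E) + 2))⁻¹ ≤ 2 * 13 ^ finrank ℝ (ℂ × E) := by
  classical
  set D := finrank ℝ (ℂ × E) with hD
  set N := ⌊2 / s⌋₊ + 1 with hN
  have hmaps : ∀ ζ ∈ Z, ⌊dd z ζ / s⌋₊ ∈ Finset.range N := by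
    intro ζ hζ
    rw [Finset.mem_range, hN, Nat.lt_succ_iff]
    apply Nat.floor_le_floor
    have := dd_le_two hz (hZ ζ hζ).le
    gcongr
  rw [← Finset.sum_fiberwise_of_maps_to hmaps]
  calc ∑ j ∈ Finset.range N, ∑ ζ ∈ Z with ⌊dd z ζ / s⌋₊ = j, ((1 + dd z ζ / s) ^ (D + 2))⁻¹
      ≤ ∑ j ∈ Finset.range N, 13 ^ D * ((1 + (j : ℝ)) ^ 2)⁻¹ := by
        apply Finset.sum_le_sum
        intro j _
        have hj0 : (0 : ℝ) ≤ j := Nat.cast_nonneg j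
        set Zj := Z.filter (fun ζ => ⌊dd z ζ / s⌋₊ = j) with hZj
        have hcard : (Zj.card : ℝ) ≤ (13 * (1 + (j : ℝ))) ^ D := by
          have h1 := pack_sphere Zj hz hs (t := (j + 1) * s) (by positivity)
            (fun ζ hζ => hZ ζ (Finset.mem_filter.1 hζ).1)
            (fun ζ hζ η hη hne => hsep ζ (Finset.mem_filter.1 hζ).1 η (Finset.mem_filter.1 hη).1 hne)
            (by
              intro ζ hζ
              have h2 := (Finset.mem_filter.1 hζ).2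
              have h3 := Nat.lt_floor_add_one (dd z ζ / s)
              rw [h2] at h3
              rw [div_lt_iff₀ hs] at h3
              exact h3.le)
          refine h1.trans ?_
          have e : ((j : ℝ) + 1) * s / s = j + 1 := by field_simp
          rw [e]
          gcongr
          linarith
        calc ∑ ζ ∈ Zj, ((1 + dd z ζ / s) ^ (D + 2))⁻¹
            ≤ ∑ ζ ∈ Zj, ((1 + (j : ℝ)) ^ (D + 2))⁻¹ := by
              apply Finset.sum_le_sum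
              intro ζ hζ
              have h2 := (Finset.mem_filter.1 hζ).2
              have h3 := Nat.floor_le (div_nonneg (dd_nonneg z ζ) hs.le)
              rw [h2] at h3
              gcongr
          _ = Zj.card * ((1 + (j : ℝ)) ^ (D + 2))⁻¹ := by rw [Finset.sum_const, nsmul_eq_mul]
          _ ≤ (13 * (1 + (j : ℝ))) ^ D * ((1 + (j : ℝ)) ^ (D + 2))⁻¹ := by gcongr
          _ = 13 ^ D * ((1 + (j : ℝ)) ^ 2)⁻¹ := by
              rw [mul_pow, pow_add]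
              field_simp
    _ = 13 ^ D * ∑ j ∈ Finset.range N, ((1 + (j : ℝ)) ^ 2)⁻¹ := by rw [Finset.mul_sum]
    _ ≤ 13 ^ D * 2 := by gcongr; exact sum_inv_sq N
    _ = _ := by ring

end Pool.Agent.Helper853.UM
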