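import Pool.Agent.Helper853.UM.Seq

set_option autoImplicit false

namespace Pool.Agent.Helper853.UM

open Metric MeasureTheory Module Filter Topology

variable {E : Type*} [NormedAddCommGroup E] [InnerProductSpace ℂ E]

/-- Cauchy estimate for functions bounded on the closed unit ball -/
lemma cauchy_ball {Q : E → ℂ} {M : ℝ} (hM : 0 ≤ M) (hd : ∀ z : E, ‖z‖ ≤ 1 → DifferentiableAt ℂ Q z)
    (hb : ∀ z : E, ‖z‖ ≤ 1 → ‖Q z‖ ≤ M) {z : E} (hz : ‖z‖ < 1) :
    ‖fderiv ℂ Q z‖ ≤ M / (1 - ‖z‖) := by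
  have hR : 0 < 1 - ‖z‖ := by linarith
  apply ContinuousLinearMap.opNorm_le_bound _ (by positivity)
  intro v
  by_cases hv : v = 0
  · rw [hv]; simp
  have hv0 : 0 < ‖v‖ := norm_pos_iff.2 hv
  set R := (1 - ‖z‖) / ‖v‖ with hRdef
  have hR0 : 0 < R := by positivity
  have hin : ∀ t : ℂ, ‖t‖ ≤ R → ‖z + t • v‖ ≤ 1 := by
    intro t ht
    calc ‖z + t • v‖ ≤ ‖z‖ + ‖t‖ * ‖v‖ := by
          refine (norm_add_le _ _).trans ?_
          rw [norm_smul]
      _ ≤ ‖z‖ + R * ‖v‖ := by gcongr
      _ = 1 := by rw [hRdef]; field_simp; ring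
  have hline : ∀ t : ℂ, ‖t‖ ≤ R → HasDerivAt (fun t : ℂ => Q (z + t • v)) (fderiv ℂ Q (z + t • v) v) t := by
    intro t ht
    have h1 : HasFDerivAt Q (fderiv ℂ Q (z + t • v)) (z + t • v) := (hd _ (hin t ht)).hasFDerivAt
    have h2 : HasDerivAt (fun t : ℂ => z + t • v) v t := by
      have := (hasDerivAt_id t).smul_const v
      simpa using this.const_add z
    exact h1.comp_hasDerivAt t h2
  have hcl : DiffContOnCl ℂ (fun t : ℂ => Q (z + t • v)) (ball 0 R) := by
    apply DifferentiableOn.diffContOnCl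
    intro t ht
    rw [closure_ball _ hR0.ne', mem_closedBall_zero_iff] at ht
    exact (hline t ht).differentiableAt.differentiableWithinAt
  have h3 := Complex.norm_deriv_le_of_forall_mem_sphere_norm_le (c := 0) hR0 hcl (C := M) (by
    intro t ht
    rw [mem_sphere_zero_iff_norm] at ht
    exact hb _ (hin t ht.le))
  have h4 := (hline 0 (by rw [norm_zero]; exact hR0.le)).deriv
  rw [h4] at h3
  rw [zero_smul, add_zero] at h3
  calc ‖fderiv ℂ Q z v‖ ≤ M / R := h3
    _ = M / (1 - ‖z‖) * ‖v‖ := by rw [hRdef]; field_simp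

lemma C3_lk_summable {l0 rho : ℝ} (hrho : 1 < rho) (C : ℝ) :
    Summable (fun k => C * lk l0 rho k) := by
  apply Summable.mul_left
  unfold lk
  have h1 : ∀ k : ℕ, l0 / (rho ^ 2) ^ k = l0 * ((rho ^ 2)⁻¹) ^ k := by
    intro k; rw [inv_pow]; rfl
  simp_rw [h1]
  apply Summable.mul_left
  apply summable_geometric_of_lt_one (by positivity)
  apply inv_lt_one_of_one_lt₀
  nlinarith

section limit

variable {s0 l0 rho : ℝ} {Q : ℕ → E → ℂ}

/-- the limit function -/
noncomputable def Glim (G0 : ℂ) (Q : ℕ → E → ℂ) (z : E) : ℂ := G0 + ∑' k, Q k z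

lemma Q_summable (hrho : 1 < rho) (hQ : ∀ k, BB (sk s0 k) (lk l0 rho k) (Q k)) {z : E}
    (hz : ‖z‖ ≤ 1) : Summable (fun k => Q k z) :=
  Summable.of_norm_bounded (C3_lk_summable hrho (C3 E)) (fun k => (hQ k).b1 z hz)

lemma Glim_cont (hrho : 1 < rho) (G0 : ℂ) (hQ : ∀ k, BB (sk s0 k) (lk l0 rho k) (Q k)) :
    ContinuousOn (Glim G0 Q) (closedBall (0 : E) 1) := by
  unfold Glim
  apply continuousOn_const.add
  apply continuousOn_tsum (u := fun k => C3 E * lk l0 rho k)
  · intro k z hz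
    rw [mem_closedBall_zero_iff] at hz
    exact ((hQ k).b4 z hz).continuousAt.continuousWithinAt
  · exact C3_lk_summable hrho (C3 E)
  · intro k z hz
    rw [mem_closedBall_zero_iff] at hz
    exact (hQ k).b1 z hz

lemma Glim_diff (hrho : 1 < rho) (hl : 0 < l0) (G0 : ℂ)
    (hQ : ∀ k, BB (sk s0 k) (lk l0 rho k) (Q k)) :
    DifferentiableOn ℂ (Glim G0 Q) (ball (0 : E) 1) := by
  have hlk : ∀ k, 0 < lk l0 rho k := by intro k; unfold lk; positivity
  have hC3 := C3_pos E
  intro z hz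
  rw [mem_ball_zero_iff] at hz
  apply DifferentiableAt.differentiableWithinAt
  obtain ⟨r, hzr, hr1⟩ := exists_between hz
  have hr0 : 0 < r := lt_of_le_of_lt (norm_nonneg z) hzr
  have key := hasFDerivAt_tsum_of_isPreconnected (𝕜 := ℂ)
    (f := fun k => Q k) (f' := fun k y => fderiv ℂ (Q k) y)
    (u := fun k => (C3 E / (1 - r)) * lk l0 rho k) (s := ball (0 : E) r) (x₀ := 0) (x := z)
    (C3_lk_summable hrho _) isOpen_ball
    ((convex_ball (0 : E) r).isPreconnected) ?_ ?_ ?_ ?_ ?_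
  · unfold Glim
    exact (key.differentiableAt).const_add G0
  · intro k y hy
    rw [mem_ball_zero_iff] at hy
    exact ((hQ k).b4 y (by linarith)).hasFDerivAt
  · intro k y hy
    rw [mem_ball_zero_iff] at hy
    have h1 := cauchy_ball (Q := Q k) (M := C3 E * lk l0 rho k) (by have := hlk k; positivity)
      (hQ k).b4 (hQ k).b1 (z := y) (by linarith)
    refine h1.trans ?_
    have h2 : C3 E / (1 - r) * lk l0 rho k = (C3 E * lk l0 rho k) / (1 - r) := by ring
    rw [h2]
    apply div_le_div_of_nonneg_left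
    · have := hlk k; positivity
    · linarith
    · linarith
  · rw [mem_ball_zero_iff, norm_zero]; exact hr0
  · exact Q_summable hrho hQ (by simp)
  · rw [mem_ball_zero_iff]; exact hzr

/-- Hoelder continuity -/
lemma Glim_hoelder (hs : 0 < s0) (hrho : 1 < rho) (hrho2 : rho < 4) (hl : 0 < l0) (G0 : ℂ)
    (hQ : ∀ k, BB (sk s0 k) (lk l0 rho k) (Q k)) :
    ∃ C : ℝ, 0 ≤ C ∧ ∀ z w : E, ‖z‖ ≤ 1 → ‖w‖ ≤ 1 →
      ‖Glim G0 Q z - Glim G0 Q w‖ ≤ C * ‖z - w‖ ^ (Real.logb 4 rho) := by
  have hC3 := C3_pos E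
  have hlk : ∀ k, 0 < lk l0 rho k := by intro k; unfold lk; positivity
  set t := Real.logb 4 rho with ht
  have h4t : (4 : ℝ) ^ t = rho := Real.rpow_logb (by norm_num) (by norm_num) (by linarith)
  have ht0 : 0 < t := Real.logb_pos (by norm_num) hrho
  have ht1 : t ≤ 1 := by
    rw [ht]
    have := Real.logb_le_logb_of_le (b := 4) (by norm_num) (by linarith) hrho2.le
    rw [Real.logb_self_eq_one (by norm_num)] at this
    exact this
  set A : ℝ := 2 * ((mm E : ℝ) + 1) * C3 E with hA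
  have hA0 : 0 < A := by positivity
  have hAC : 2 * C3 E ≤ A := by
    rw [hA]
    have : (0 : ℝ) ≤ mm E := Nat.cast_nonneg _
    nlinarith
  have hgeo : Summable (fun k : ℕ => (rho⁻¹) ^ k) :=
    summable_geometric_of_lt_one (by positivity) (inv_lt_one_of_one_lt₀ hrho)
  set S : ℝ := ∑' k : ℕ, (rho⁻¹) ^ k with hS
  refine ⟨A * l0 * (s0 ^ t)⁻¹ * S, ?_, ?_⟩
  · have : 0 ≤ S := tsum_nonneg (fun k => by positivity)
    positivity
  · intro z w hz hw
    set δ := ‖z - w‖ with hδ
    have hδ0 : 0 ≤ δ := norm_nonneg _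
    have hterm : ∀ k : ℕ, ‖Q k z - Q k w‖ ≤ A * l0 * (s0 ^ t)⁻¹ * δ ^ t * (rho⁻¹) ^ k := by
      intro k
      have hsk : 0 < sk s0 k := by unfold sk; positivity
      have h1 : ‖Q k z - Q k w‖ ≤ A * lk l0 rho k := by
        calc ‖Q k z - Q k w‖ ≤ ‖Q k z‖ + ‖Q k w‖ := norm_sub_le _ _
          _ ≤ C3 E * lk l0 rho k + C3 E * lk l0 rho k := add_le_add ((hQ k).b1 z hz) ((hQ k).b1 w hw)
          _ = (2 * C3 E) * lk l0 rho k := by ring
          _ ≤ _ := by have := hlk k; gcongr
      have h2 : ‖Q k z - Q k w‖ ≤ A * lk l0 rho k * (δ / sk s0 k) := by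
        refine ((hQ k).b2 z w hz hw).trans (le_of_eq ?_)
        rw [hA, hδ]; ring
      have h3 : ‖Q k z - Q k w‖ ≤ A * lk l0 rho k * (δ / sk s0 k) ^ t := by
        have hlk' := hlk k
        set X := δ / sk s0 k with hX
        have hX0 : 0 ≤ X := by positivity
        by_cases hX1 : X ≤ 1
        · refine h2.trans ?_
          apply mul_le_mul_of_nonneg_left _ (by positivity)
          calc X = X ^ (1 : ℝ) := (Real.rpow_one X).symm
            _ ≤ X ^ t := by
                rcases hX0.eq_or_lt with h0 | h0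
                · rw [← h0, Real.zero_rpow (by norm_num), Real.zero_rpow ht0.ne']
                · exact Real.rpow_le_rpow_of_exponent_ge h0 hX1 ht1
        · push Not at hX1
          refine h1.trans ?_
          have : 1 ≤ X ^ t := Real.one_le_rpow hX1.le ht0.le
          calc A * lk l0 rho k = A * lk l0 rho k * 1 := (mul_one _).symm
            _ ≤ _ := by gcongr
      refine h3.trans (le_of_eq ?_)
      rw [Real.div_rpow hδ0 hsk.le]
      have h4 : sk s0 k ^ t = s0 ^ t / rho ^ k := by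
        unfold sk
        rw [Real.div_rpow hs.le (by positivity)]
        congr 1
        rw [← Real.rpow_natCast, ← Real.rpow_mul (by norm_num), mul_comm, Real.rpow_mul (by norm_num),
          h4t, Real.rpow_natCast]
      rw [h4]
      unfold lk
      have hs0t : 0 < s0 ^ t := Real.rpow_pos_of_pos hs t
      have hrk : 0 < rho ^ k := by positivity
      rw [inv_pow]
      field_simp
      ring
    have hsz := Q_summable hrho hQ hz
    have hsw := Q_summable hrho hQ hw
    have hdiff : Glim G0 Q z - Glim G0 Q w = ∑' k, (Q k z - Q k w) := by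
      unfold Glim
      rw [hsz.tsum_sub hsw]; ring
    rw [hdiff]
    have hsum2 : Summable (fun k : ℕ => A * l0 * (s0 ^ t)⁻¹ * δ ^ t * (rho⁻¹) ^ k) := hgeo.mul_left _
    calc ‖∑' k, (Q k z - Q k w)‖ ≤ ∑' k : ℕ, A * l0 * (s0 ^ t)⁻¹ * δ ^ t * (rho⁻¹) ^ k :=
          tsum_of_norm_bounded hsum2.hasSum hterm
      _ = A * l0 * (s0 ^ t)⁻¹ * δ ^ t * S := by rw [tsum_mul_left]
      _ = _ := by ring

/-- value at the centre -/
lemma Glim_zero (hs : 0 < s0) (hrho : 1 < rho) (hl : 0 < l0) {b : ℝ}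
    (hsmall : 25 ^ dimc E * l0 * s0 ≤ b) (hs1 : s0 ≤ 1) (G0 : ℂ)
    (hQ : ∀ k, BB (sk s0 k) (lk l0 rho k) (Q k)) :
    ‖Glim G0 Q 0 - G0‖ ≤ 2 * b := by
  have e : Glim G0 Q 0 - G0 = ∑' k, Q k 0 := by unfold Glim; ring
  rw [e]
  have hb : ∀ k : ℕ, ‖Q k 0‖ ≤ b * ((1 / 2 : ℝ)) ^ k := by
    intro k
    refine ((hQ k).b3).trans ?_
    have h1 : lk l0 rho k ≤ l0 := by
      unfold lk
      apply div_le_self hl.le
      apply one_le_pow₀
      nlinarith
    have h2 : sk s0 k ^ 4 ≤ s0 * (1 / 2 : ℝ) ^ k := by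
      unfold sk
      have h3 : s0 / 4 ^ k ≤ s0 * (1 / 2 : ℝ) ^ k := by
        rw [div_eq_mul_inv]
        gcongr
        rw [← inv_pow]
        gcongr
        norm_num
      have h4 : s0 / 4 ^ k ≤ 1 := by
        rw [div_le_one (by positivity)]
        exact hs1.trans (one_le_pow₀ (by norm_num))
      have h5 : 0 ≤ s0 / 4 ^ k := by positivity
      calc (s0 / 4 ^ k) ^ 4 ≤ (s0 / 4 ^ k) ^ 1 := pow_le_pow_of_le_one h5 h4 (by norm_num)
        _ = s0 / 4 ^ k := pow_one _
        _ ≤ _ := h3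
    have h6 : 0 ≤ sk s0 k ^ 4 := by unfold sk; positivity
    calc 25 ^ dimc E * lk l0 rho k * sk s0 k ^ 4 ≤ 25 ^ dimc E * l0 * (s0 * (1 / 2 : ℝ) ^ k) := by
          gcongr
      _ = (25 ^ dimc E * l0 * s0) * (1 / 2 : ℝ) ^ k := by ring
      _ ≤ _ := by gcongr
  have hgeo : HasSum (fun k : ℕ => b * ((1 / 2 : ℝ)) ^ k) (b * 2) := by
    have := hasSum_geometric_two
    exact this.mul_left _
  refine (tsum_of_norm_bounded hgeo hb).trans (le_of_eq (by ring))

end limit

section measure

variable [MeasurableSpace E] [BorelSpace E] {s0 l0 rho : ℝ} {Q : ℕ → E → ℂ}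

omit [MeasurableSpace E] [BorelSpace E] in
lemma partial_tendsto (hrho : 1 < rho) (G0 : ℂ) (hQ : ∀ k, BB (sk s0 k) (lk l0 rho k) (Q k))
    {z : E} (hz : ‖z‖ ≤ 1) :
    Tendsto (fun k : ℕ => G0 + ∑ i ∈ Finset.range k, Q i z) atTop (𝓝 (Glim G0 Q z)) := by
  unfold Glim
  exact tendsto_const_nhds.add (Q_summable hrho hQ hz).hasSum.tendsto_sum_nat

lemma lk_tendsto (hrho : 1 < rho) : Tendsto (lk l0 rho) atTop (𝓝 0) := by
  have h := (C3_lk_summable (l0 := l0) hrho 1).tendsto_atTop_zero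
  simpa using h

/-- the set where the real part of the limit is positive is small -/
lemma measure_pos_set (μ : Measure (sphere (0 : E) 1)) [IsFiniteMeasure μ] {F0 : ℝ}
    (hrho : 1 < rho) (hl : 0 < l0) (G0 : ℂ) (hQ : ∀ k, BB (sk s0 k) (lk l0 rho k) (Q k))
    (hA : ∀ k, AA μ F0 (sk s0 k) (lk l0 rho k) (fun z => G0 + ∑ i ∈ Finset.range k, Q i z)) :
    μ.real {x : sphere (0 : E) 1 | 0 < (Glim G0 Q x).re} ≤ F0 := by
  set P : Set (sphere (0 : E) 1) := {x : sphere (0 : E) 1 | 0 < (Glim G0 Q x).re} with hP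
  have hcont : Continuous (fun x : sphere (0 : E) 1 => (Glim G0 Q (x : E)).re) :=
    Complex.continuous_re.comp (restrict_cont (Glim_cont hrho G0 hQ))
  have hPmeas : MeasurableSet P := (isOpen_lt continuous_const hcont).measurableSet
  have hnorm : ∀ x : sphere (0 : E) 1, ‖(x : E)‖ = 1 := by
    intro x; have := x.2; rwa [mem_sphere_zero_iff_norm] at this
  have hlk : ∀ k, 0 < lk l0 rho k := by intro k; unfold lk; positivity
  set h : ℕ → sphere (0 : E) 1 → ℝ := fun k x =>
    P.indicator (fun x => phi (lk l0 rho k) (G0 + ∑ i ∈ Finset.range k, Q i (x : E)).re) x with hh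
  have hint : ∀ k, Integrable (fun x : sphere (0 : E) 1 =>
      phi (lk l0 rho k) (G0 + ∑ i ∈ Finset.range k, Q i (x : E)).re) μ :=
    fun k => FF_integrable μ _ (hA k).a1
  have hlim : Tendsto (fun k => ∫ x, h k x ∂μ) atTop (𝓝 (∫ x, P.indicator (fun _ => (1 : ℝ)) x ∂μ)) := by
    apply tendsto_integral_of_dominated_convergence (fun _ => (1 : ℝ))
    · intro k
      exact ((hint k).indicator hPmeas).aestronglyMeasurable
    · exact integrable_const 1
    · intro k
      filter_upwards with x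
      rw [hh]
      simp only
      by_cases hx : x ∈ P
      · rw [Set.indicator_of_mem hx, Real.norm_of_nonneg (phi_nonneg _ _)]
        exact phi_le_one _ _
      · rw [Set.indicator_of_notMem hx, norm_zero]; norm_num
    · filter_upwards with x
      rw [hh]
      simp only
      by_cases hx : x ∈ P
      · simp only [Set.indicator_of_mem hx]
        apply tendsto_const_nhds.congr'
        have hx0 : 0 < (Glim G0 Q (x : E)).re := hx
        have ht := (Complex.continuous_re.tendsto _).comp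
          (partial_tendsto (Q := Q) hrho G0 hQ (z := (x : E)) (hnorm x).le)
        have h1 : ∀ᶠ k in atTop, (Glim G0 Q (x : E)).re / 2 <
            (G0 + ∑ i ∈ Finset.range k, Q i (x : E)).re :=
          ht.eventually_const_lt (by linarith)
        have h2 : ∀ᶠ k in atTop, lk l0 rho k < (Glim G0 Q (x : E)).re :=
          (lk_tendsto hrho).eventually_lt_const hx0
        filter_upwards [h1, h2] with k hk1 hk2
        symm
        unfold phi
        apply min_eq_left
        rw [Real.one_le_sqrt, le_div_iff₀ (hlk k)]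
        linarith
      · simp only [Set.indicator_of_notMem hx]
        exact tendsto_const_nhds
  have hle : ∀ k, ∫ x, h k x ∂μ ≤ F0 := by
    intro k
    refine le_trans ?_ (hA k).a3
    unfold FF
    apply integral_mono
    · exact (hint k).indicator hPmeas
    · exact hint k
    · intro x
      rw [hh]
      simp only
      by_cases hx : x ∈ P
      · rw [Set.indicator_of_mem hx]
      · rw [Set.indicator_of_notMem hx]; exact phi_nonneg _ _
  have hfin := le_of_tendsto' hlim hle
  rw [integral_indicator_const _ hPmeas] at hfin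
  simpa using hfin

end measure

end Pool.Agent.Helper853.UM
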