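import Pool.Agent.Helper853.UM.Lim

set_option autoImplicit false

namespace Pool.Agent.Helper853.UM

open Metric MeasureTheory Module Filter Topology

/-- Main existence theorem: in every dimension there is an exponent `t > 0` such that for every
finite Borel measure on the unit sphere and every `ε > 0` there is a nonconstant function `G`,
holomorphic in the ball and Hoelder continuous of order `t` up to the boundary, with `Re G ≥ 0` and
`Re G = 0` off a set of relative measure at most `ε`. -/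
theorem exists_G (E : Type*) [NormedAddCommGroup E] [InnerProductSpace ℂ E] [MeasurableSpace E]
    [BorelSpace E] [FiniteDimensional ℂ E] [Nontrivial E] :
    ∃ t : ℝ, 0 < t ∧ t ≤ 1 ∧ ∀ (μ : Measure (sphere (0 : E) 1)) [IsFiniteMeasure μ] (ε : ℝ), 0 < ε → ε ≤ 1 →
      ∃ G : E → ℂ, ContinuousOn G (closedBall (0 : E) 1) ∧ DifferentiableOn ℂ G (ball (0 : E) 1) ∧
        (∃ C : ℝ, 0 ≤ C ∧ ∀ z w : E, ‖z‖ ≤ 1 → ‖w‖ ≤ 1 → ‖G z - G w‖ ≤ C * ‖z - w‖ ^ t) ∧
        (∀ z : E, ‖z‖ = 1 → 0 ≤ (G z).re) ∧ 0 < (G 0).re ∧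
        μ.real {x : sphere (0 : E) 1 | 0 < (G x).re} ≤ ε * μ.real Set.univ := by
  have hL := LL_ge E
  obtain ⟨J, hJ⟩ := exists_nat_gt ((1 + 12 * (LL E / (1 / ((mm E + 1 : ℕ) : ℝ)))) ^ finrank ℝ (ℂ × E))
  have hJ0 : (0 : ℝ) < J := by
    have h1 : (0 : ℝ) ≤ (1 + 12 * (LL E / (1 / ((mm E + 1 : ℕ) : ℝ)))) ^ finrank ℝ (ℂ × E) := by
      have : 0 ≤ LL E := by linarith
      positivity
    exact lt_of_le_of_lt h1 hJ
  have hJ1 : (1 : ℝ) ≤ J := by
    have : 0 < J := by exact_mod_cast hJ0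
    exact_mod_cast this
  obtain ⟨rho, hrho⟩ : ∃ rho : ℝ, rho = 1 + kap E / J := ⟨_, rfl⟩
  have hrho1 : 1 < rho := by
    rw [hrho]
    have := div_pos (kap_pos (E := E)) hJ0
    linarith
  have hrho4 : rho < 4 := by
    rw [hrho]
    have h1 : kap E / J ≤ 1 := by
      rw [div_le_one hJ0]
      exact (kap_lt_one (E := E)).le.trans hJ1
    linarith
  refine ⟨Real.logb 4 rho, Real.logb_pos (by norm_num) hrho1, ?_, ?_⟩
  · have := Real.logb_le_logb_of_le (b := 4) (by norm_num) (by linarith) hrho4.le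
    rw [Real.logb_self_eq_one (by norm_num)] at this
    exact this
  intro μ _ ε hε hε1
  set K : ℝ := 2 / ε ^ 2 with hK
  have hK0 : 0 < K := by positivity
  have hK2 : 2 ≤ K := by
    rw [hK, le_div_iff₀ (by positivity)]
    nlinarith
  set s0 : ℝ := 1 / (4 * 25 ^ dimc E * K) with hs0
  have h25 : (1 : ℝ) ≤ 25 ^ dimc E := one_le_pow₀ (by norm_num)
  have hs0pos : 0 < s0 := by positivity
  have hs01 : s0 ≤ 1 := by
    rw [hs0, div_le_one (by positivity)]
    nlinarith
  have hA0 : AA μ (ε * μ.real Set.univ) s0 K (fun _ : E => (1 : ℂ)) := by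
    constructor
    · exact continuousOn_const
    · constructor
      · intro z _; simp
      · intro z y _ _ _
        simp only [Complex.one_re, sub_self, abs_zero]
        have := Real.sqrt_nonneg (dd z y / s0)
        positivity
      · intro z y _ _
        simp only [Complex.one_re]
        have := div_nonneg (dd_nonneg z y) hs0pos.le
        linarith
    · unfold FF
      have hphi : phi K ((1 : ℂ)).re = ε := by
        unfold phi
        rw [Complex.one_re]
        have e : 2 * 1 / K = ε ^ 2 := by rw [hK]; field_simp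
        rw [e, Real.sqrt_sq hε.le]
        exact min_eq_right hε1
      have e2 : (fun x : sphere (0 : E) 1 => phi K ((fun _ : E => (1 : ℂ)) (x : E)).re)
          = fun _ => ε := by
        funext x; exact hphi
      rw [e2, integral_const, smul_eq_mul, mul_comm]
  obtain ⟨Q, hQ, hA⟩ := exists_updates μ hJ hrho hs0pos hs01 hK0 hA0
  refine ⟨Glim 1 Q, Glim_cont hrho1 1 hQ, Glim_diff hrho1 hK0 1 hQ,
    Glim_hoelder hs0pos hrho1 hrho4 hK0 1 hQ, ?_, ?_, ?_⟩
  · intro z hz
    have ht := (Complex.continuous_re.tendsto _).comp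
      (partial_tendsto (Q := Q) hrho1 1 hQ (z := z) hz.le)
    apply ge_of_tendsto' ht
    intro k
    exact ((hA k).a2.pos z hz).le
  · have h1 := Glim_zero (b := 1 / 4) hs0pos hrho1 hK0 (by
      rw [hs0]; apply le_of_eq; field_simp) hs01 1 hQ
    have h2 := (Complex.abs_re_le_norm (Glim 1 Q (0 : E) - 1)).trans h1
    rw [Complex.sub_re, Complex.one_re] at h2
    have := (abs_le.1 h2).1
    linarith
  · exact measure_pos_set μ hrho1 hK0 1 hQ hA

/-- exponentiating: unimodular boundary values off a small set -/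
theorem exists_F (E : Type*) [NormedAddCommGroup E] [InnerProductSpace ℂ E] [MeasurableSpace E]
    [BorelSpace E] [FiniteDimensional ℂ E] [Nontrivial E] :
    ∃ t : ℝ, 0 < t ∧ t ≤ 1 ∧ ∀ (μ : Measure (sphere (0 : E) 1)) [IsFiniteMeasure μ] (ε : ℝ), 0 < ε → ε ≤ 1 →
      ∃ f : E → ℂ, ContinuousOn f (closedBall (0 : E) 1) ∧ DifferentiableOn ℂ f (ball (0 : E) 1) ∧
        (∃ C : ℝ, 0 ≤ C ∧ ∀ z w : E, ‖z‖ ≤ 1 → ‖w‖ ≤ 1 → ‖f z - f w‖ ≤ C * ‖z - w‖ ^ t) ∧
        (∀ z : E, ‖z‖ ≤ 1 → ‖f z‖ ≤ 1) ∧ ‖f 0‖ < 1 ∧ 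
        μ.real {x : sphere (0 : E) 1 | ‖f x‖ ≠ 1} ≤ ε * μ.real Set.univ := by
  obtain ⟨t, ht0, ht1, H⟩ := exists_G E
  refine ⟨t, ht0, ht1, ?_⟩
  intro μ _ ε hε hε1
  obtain ⟨G, hGc, hGd, ⟨C, hC, hGL⟩, hG0, hGz, hGm⟩ := H μ ε hε hε1
  have hfc : ContinuousOn (fun z => Complex.exp (-G z)) (closedBall (0 : E) 1) :=
    Complex.continuous_exp.comp_continuousOn hGc.neg
  have hfd : DifferentiableOn ℂ (fun z => Complex.exp (-G z)) (ball (0 : E) 1) := hGd.neg.cexp
  have hnorm : ∀ z, ‖Complex.exp (-G z)‖ = Real.exp (-(G z).re) := by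
    intro z; rw [Complex.norm_exp, Complex.neg_re]
  have hcl : DiffContOnCl ℂ (fun z => Complex.exp (-G z)) (ball (0 : E) 1) := by
    refine ⟨hfd, ?_⟩
    rw [closure_ball _ one_ne_zero]
    exact hfc
  have hle : ∀ z : E, ‖z‖ ≤ 1 → ‖Complex.exp (-G z)‖ ≤ 1 := by
    intro z hz
    refine Complex.norm_le_of_forall_mem_frontier_norm_le isBounded_ball hcl ?_ ?_
    · intro w hw
      rw [frontier_ball _ one_ne_zero, mem_sphere_zero_iff_norm] at hw
      rw [hnorm]
      have := hG0 w hw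
      rw [Real.exp_le_one_iff]
      linarith
    · rw [closure_ball _ one_ne_zero, mem_closedBall_zero_iff]; exact hz
  have hre : ∀ z : E, ‖z‖ ≤ 1 → 0 ≤ (G z).re := by
    intro z hz
    have h1 := hle z hz
    rw [hnorm, Real.exp_le_one_iff] at h1
    linarith
  refine ⟨fun z => Complex.exp (-G z), hfc, hfd, ⟨C, hC, ?_⟩, hle, ?_, ?_⟩
  · intro z w hz hw
    refine le_trans ?_ (hGL z w hz hw)
    have hconv : Convex ℝ {v : ℂ | v.re ≤ 0} := convex_halfSpace_re_le 0
    have := Convex.norm_image_sub_le_of_norm_deriv_le (𝕜 := ℂ) (f := Complex.exp) (C := 1)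
      (s := {v : ℂ | v.re ≤ 0}) (x := -G w) (y := -G z)
      (fun v _ => Complex.differentiableAt_exp) (by
        intro v hv
        rw [Complex.deriv_exp, Complex.norm_exp, Real.exp_le_one_iff]
        exact hv) hconv (by
          simp only [Set.mem_ofPred_eq, Complex.neg_re]; linarith [hre w hw]) (by
          simp only [Set.mem_ofPred_eq, Complex.neg_re]; linarith [hre z hz])
    refine this.trans (le_of_eq ?_)
    rw [one_mul]
    have e : -G z - -G w = -(G z - G w) := by ring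
    rw [e, norm_neg]
  · simp only
    rw [hnorm, Real.exp_lt_one_iff]
    linarith
  · refine le_trans (le_of_eq ?_) hGm
    congr 1
    ext x
    have hx : ‖(x : E)‖ = 1 := by
      have := x.2; rwa [mem_sphere_zero_iff_norm] at this
    simp only [Set.mem_ofPred_eq]
    rw [hnorm]
    have := hG0 x hx
    constructor
    · intro h
      rcases this.eq_or_lt with h0 | h0
      · exfalso; apply h; rw [← h0]; simp
      · exact h0
    · intro h h'
      rw [Real.exp_eq_one_iff] at h'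
      linarith

end Pool.Agent.Helper853.UM
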