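import Pool.Agent.Helper853.UM.Geo

set_option autoImplicit false

namespace Pool.Agent.Helper853.UM

open Metric MeasureTheory Module

variable {E : Type*} [NormedAddCommGroup E] [InnerProductSpace ℂ E]

lemma exists_max_sep [FiniteDimensional ℂ E] {s : ℝ} (hs : 0 < s) :
    ∃ N : Finset E, (∀ ζ ∈ N, ‖ζ‖ = 1) ∧ (∀ ζ ∈ N, ∀ η ∈ N, ζ ≠ η → s ≤ dd ζ η) ∧
      ∀ x : E, ‖x‖ = 1 → ∃ ζ ∈ N, dd x ζ < s := by
  classical
  by_contra hcon
  push Not at hcon
  have key : ∀ k : ℕ, ∃ N : Finset E, (∀ ζ ∈ N, ‖ζ‖ = 1) ∧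
      (∀ ζ ∈ N, ∀ η ∈ N, ζ ≠ η → s ≤ dd ζ η) ∧ N.card = k := by
    intro k
    induction k with
    | zero => exact ⟨∅, by simp, by simp, by simp⟩
    | succ n ih =>
      obtain ⟨N, h1, h2, h3⟩ := ih
      obtain ⟨x, hx, hfar⟩ := hcon N h1 h2
      have hxN : x ∉ N := by
        intro hmem
        have := hfar x hmem
        rw [dd_self hx] at this
        linarith
      refine ⟨insert x N, ?_, ?_, ?_⟩
      · intro ζ hζ
        rcases Finset.mem_insert.1 hζ with rfl | h
        · exact hx
        · exact h1 ζ h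
      · intro ζ hζ η hη hne
        rcases Finset.mem_insert.1 hζ with rfl | h
        · rcases Finset.mem_insert.1 hη with rfl | h'
          · exact absurd rfl hne
          · exact hfar η h'
        · rcases Finset.mem_insert.1 hη with rfl | h'
          · rw [dd_comm]; exact hfar ζ h
          · exact h2 ζ h η h' hne
      · rw [Finset.card_insert_of_notMem hxN, h3]
  obtain ⟨x, hx, _⟩ := hcon ∅ (by simp) (by simp)
  obtain ⟨k, hk⟩ := exists_nat_gt ((1 + 12 * (2 / s)) ^ finrank ℝ (ℂ × E))
  obtain ⟨N, h1, h2, h3⟩ := key k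
  have := pack_sphere N hx hs (t := 2) (by norm_num) h1 h2 (fun ζ hζ => dd_le_two hx (h1 ζ hζ).le)
  rw [h3] at this
  linarith

lemma exists_coloring {α : Type*} [DecidableEq α] (close : α → α → Prop) [DecidableRel close]
    (hsymm : ∀ x y, close x y → close y x) (J : ℕ) (N : Finset α)
    (hN : ∀ x ∈ N, (N.filter (fun y => y ≠ x ∧ close x y)).card < J) :
    ∃ col : α → ℕ, (∀ x ∈ N, col x < J) ∧ ∀ x ∈ N, ∀ y ∈ N, x ≠ y → close x y → col x ≠ col y := by
  induction N using Finset.induction_on with
  | empty => exact ⟨fun _ => 0, by simp, by simp⟩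
  | insert a N ha ih =>
    have hN' : ∀ x ∈ N, (N.filter (fun y => y ≠ x ∧ close x y)).card < J := by
      intro x hx
      refine lt_of_le_of_lt (Finset.card_le_card ?_) (hN x (Finset.mem_insert_of_mem hx))
      intro y hy
      rw [Finset.mem_filter] at hy ⊢
      exact ⟨Finset.mem_insert_of_mem hy.1, hy.2⟩
    obtain ⟨col, hc1, hc2⟩ := ih hN'
    set nb := N.filter (fun y => y ≠ a ∧ close a y) with hnb
    have hcard : (nb.image col).card < (Finset.range J).card := by
      rw [Finset.card_range]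
      refine lt_of_le_of_lt Finset.card_image_le ?_
      refine lt_of_le_of_lt (Finset.card_le_card ?_) (hN a (Finset.mem_insert_self a N))
      intro y hy
      rw [hnb, Finset.mem_filter] at hy
      rw [Finset.mem_filter]
      exact ⟨Finset.mem_insert_of_mem hy.1, hy.2⟩
    obtain ⟨c, hcJ, hc⟩ := Finset.exists_mem_notMem_of_card_lt_card hcard
    refine ⟨Function.update col a c, ?_, ?_⟩
    · intro x hx
      rcases Finset.mem_insert.1 hx with rfl | h
      · rw [Function.update_self]; exact Finset.mem_range.1 hcJ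
      · have : x ≠ a := fun h' => ha (h' ▸ h)
        rw [Function.update_of_ne this]; exact hc1 x h
    · intro x hx y hy hne hcl
      rcases Finset.mem_insert.1 hx with rfl | h
      · rcases Finset.mem_insert.1 hy with rfl | h'
        · exact absurd rfl hne
        · have hya : y ≠ x := fun h'' => hne h''.symm
          rw [Function.update_self, Function.update_of_ne hya]
          intro heq
          apply hc
          rw [heq]
          apply Finset.mem_image_of_mem
          rw [hnb, Finset.mem_filter]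
          exact ⟨h', hya, hcl⟩
      · rcases Finset.mem_insert.1 hy with rfl | h'
        · rw [Function.update_self, Function.update_of_ne hne]
          intro heq
          apply hc
          rw [← heq]
          apply Finset.mem_image_of_mem
          rw [hnb, Finset.mem_filter]
          exact ⟨h, hne, hsymm _ _ hcl⟩
        · have h1 : x ≠ a := fun h'' => ha (h'' ▸ h)
          have h2 : y ≠ a := fun h'' => ha (h'' ▸ h')
          rw [Function.update_of_ne h1, Function.update_of_ne h2]
          exact hc2 x h y h' hne hcl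

/-- fine net with colour classes that are well separated -/
lemma exists_net [FiniteDimensional ℂ E] {s c₁ L : ℝ} (hs : 0 < s) (hc : 0 < c₁) (hL : 0 < L)
    {J : ℕ} (hJ : (1 + 12 * (L / c₁)) ^ finrank ℝ (ℂ × E) < J) :
    ∃ (N : Finset E) (col : E → ℕ), (∀ ζ ∈ N, ‖ζ‖ = 1) ∧ (∀ ζ ∈ N, col ζ < J) ∧
      (∀ ζ ∈ N, ∀ η ∈ N, ζ ≠ η → col ζ = col η → L * s ≤ dd ζ η) ∧
      ∀ x : E, ‖x‖ = 1 → ∃ ζ ∈ N, dd x ζ ≤ c₁ * s := by
  classical
  obtain ⟨N, h1, h2, h3⟩ := exists_max_sep (E := E) (s := c₁ * s) (by positivity)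
  obtain ⟨col, hc1, hc2⟩ := exists_coloring (fun x y : E => dd x y < L * s)
    (fun x y h => by rw [dd_comm]; exact h) J N (by
      intro x hx
      have hb := pack_sphere (N.filter (fun y => y ≠ x ∧ dd x y < L * s)) (h1 x hx)
        (s := c₁ * s) (t := L * s) (by positivity) (by positivity)
        (fun ζ hζ => h1 ζ (Finset.mem_filter.1 hζ).1)
        (fun ζ hζ η hη hne => h2 ζ (Finset.mem_filter.1 hζ).1 η (Finset.mem_filter.1 hη).1 hne)
        (fun ζ hζ => (Finset.mem_filter.1 hζ).2.2.le)
      have e : L * s / (c₁ * s) = L / c₁ := by field_simp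
      rw [e] at hb
      exact_mod_cast lt_of_le_of_lt hb hJ)
  refine ⟨N, col, h1, hc1, ?_, ?_⟩
  · intro ζ hζ η hη hne heq
    by_contra hlt
    push Not at hlt
    exact hc2 ζ hζ η hη hne hlt heq
  · intro x hx
    obtain ⟨ζ, hζ, h⟩ := h3 x hx
    exact ⟨ζ, hζ, h.le⟩

end Pool.Agent.Helper853.UM
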