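import Pool.Agent.Helper853.UM.Step

set_option autoImplicit false

namespace Pool.Agent.Helper853.UM

open Metric MeasureTheory Module

variable {E : Type*} [NormedAddCommGroup E] [InnerProductSpace ℂ E]

/-- all the properties needed of one update function -/
structure Good (s lam : ℝ) (u : E → ℝ) (P : E → ℂ) : Prop where
  g1 : ∀ z : E, ‖z‖ = 1 → ‖P z‖ ≤ C1 E * u z
  g2 : ∀ z y : E, ‖z‖ = 1 → ‖y‖ = 1 → dd z y ≤ s →
    ‖P z - P y‖ ≤ C2 E * Real.sqrt (dd z y / s) * u y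
  g4 : ∀ z : E, ‖z‖ ≤ 1 → ‖P z‖ ≤ C3 E * lam
  g5 : ∀ z w : E, ‖z‖ ≤ 1 → ‖w‖ ≤ 1 →
    ‖P z - P w‖ ≤ 2 * ((mm E : ℝ) + 1) * C3 E * (lam / s * ‖z - w‖)
  g6 : ‖P 0‖ ≤ 25 ^ dimc E * lam * s ^ 4
  g7 : ∀ z : E, ‖z‖ ≤ 1 → DifferentiableAt ℂ P z

lemma Kn_diff {m : ℕ} {s : ℝ} (hs : 0 < s) {ζ z : E} (hζ : ‖ζ‖ = 1) (hz : ‖z‖ ≤ 1) :
    DifferentiableAt ℂ (Kn m s ζ) z := by
  have h1 : DifferentiableAt ℂ (fun z : E => (s : ℂ) + (1 - inner ℂ ζ z)) z := by
    apply DifferentiableAt.const_add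
    apply DifferentiableAt.const_sub
    exact (innerSL ℂ ζ).differentiableAt
  have h2 : (s : ℂ) + (1 - inner ℂ ζ z) ≠ 0 := by
    intro h
    have := den_ge hs (re_one_sub_nonneg hζ hz)
    rw [h, norm_zero] at this
    linarith
  have h3 : DifferentiableAt ℂ (fun z : E => (s : ℂ) * ((s : ℂ) + (1 - inner ℂ ζ z))⁻¹) z :=
    (h1.fun_inv h2).const_mul _
  have h4 := h3.pow m
  exact h4

lemma Psum_diff {Z : Finset E} {u : E → ℝ} {s : ℝ} (hs : 0 < s) (hZ : ∀ ζ ∈ Z, ‖ζ‖ = 1) {z : E}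
    (hz : ‖z‖ ≤ 1) : DifferentiableAt ℂ (Psum Z u s) z := by
  unfold Psum
  apply DifferentiableAt.fun_sum
  intro ζ hζ
  exact (Kn_diff hs (hZ ζ hζ) hz).const_mul _

/-- a family of update functions, one of which is large at each point where `u` is small -/
lemma exists_family [FiniteDimensional ℂ E] [Nontrivial E] {s lam : ℝ} {u : E → ℝ} (hs : 0 < s)
    (hs1 : s ≤ 1) (hlam : 0 < lam) (hInv : Inv s u) {J : ℕ}
    (hJ : (1 + 12 * (LL E / (1 / ((mm E + 1 : ℕ) : ℝ)))) ^ finrank ℝ (ℂ × E) < J) :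
    ∃ P : ℕ → E → ℂ, (∀ j, Good s lam u (P j)) ∧
      ∀ x : E, ‖x‖ = 1 → u x ≤ lam / 2 → ∃ j < J, u x / 9 ≤ ‖P j x‖ := by
  classical
  have hL := LL_ge E
  have hmpos : (0 : ℝ) < ((mm E + 1 : ℕ) : ℝ) := by positivity
  obtain ⟨N, col, h1, h2, h3, h4⟩ := exists_net (E := E) hs (c₁ := 1 / ((mm E + 1 : ℕ) : ℝ))
    (by positivity) (L := LL E) (by linarith) hJ
  set Z : ℕ → Finset E := fun j => N.filter (fun ζ => col ζ = j ∧ u ζ ≤ lam) with hZdef
  have hZ1 : ∀ j, ∀ ζ ∈ Z j, ‖ζ‖ = 1 := fun j ζ hζ => h1 ζ (Finset.mem_filter.1 hζ).1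
  have hZL : ∀ j, ∀ ζ ∈ Z j, ∀ η ∈ Z j, ζ ≠ η → LL E * s ≤ dd ζ η := by
    intro j ζ hζ η hη hne
    exact h3 ζ (Finset.mem_filter.1 hζ).1 η (Finset.mem_filter.1 hη).1 hne
      ((Finset.mem_filter.1 hζ).2.1.trans (Finset.mem_filter.1 hη).2.1.symm)
  have hZs : ∀ j, ∀ ζ ∈ Z j, ∀ η ∈ Z j, ζ ≠ η → s ≤ dd ζ η := by
    intro j ζ hζ η hη hne
    have := hZL j ζ hζ η hη hne
    nlinarith
  have hZu : ∀ j, ∀ ζ ∈ Z j, |u ζ| ≤ lam := by
    intro j ζ hζ
    rw [abs_of_pos (hInv.pos ζ (hZ1 j ζ hζ))]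
    exact (Finset.mem_filter.1 hζ).2.2
  refine ⟨fun j => Psum (Z j) u s, ?_, ?_⟩
  · intro j
    exact {
      g1 := fun z hz => B1 hs hInv (hZ1 j) (hZs j) hz
      g2 := fun z y hz hy hd => B2 hs hInv (hZ1 j) (hZs j) hz hy hd
      g4 := fun z hz => B4' hs (hZ1 j) (hZs j) hlam.le (hZu j) hz
      g5 := fun z w hz hw => B5 hs (hZ1 j) (hZs j) hlam.le (hZu j) hz hw
      g6 := B6 hs hs1 (hZ1 j) (hZs j) hlam.le (hZu j)
      g7 := fun z hz => Psum_diff hs (hZ1 j) hz }
  · intro x hx hux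
    obtain ⟨ζ₀, hζ₀, hd⟩ := h4 x hx
    have hd' : dd x ζ₀ ≤ s / ((mm E + 1 : ℕ) : ℝ) := by
      refine hd.trans (le_of_eq ?_)
      ring
    have hζ1 := h1 ζ₀ hζ₀
    have hds : dd x ζ₀ ≤ s := by
      refine hd'.trans ?_
      apply div_le_self hs.le
      have : 1 ≤ mm E + 1 := by omega
      exact_mod_cast this
    have hu0 : u ζ₀ ≤ lam := by
      have h5 := hInv.loc ζ₀ x hζ1 hx (by rw [dd_comm]; exact hds)
      have h6 : Real.sqrt (dd ζ₀ x / s) ≤ 1 := by
        apply Real.sqrt_le_one.2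
        rw [div_le_one hs, dd_comm]; exact hds
      have h7 := (abs_le.1 h5).2
      have hux0 := hInv.pos x hx
      have h8 : 1 / 2 * Real.sqrt (dd ζ₀ x / s) * u x ≤ 1 / 2 * u x := by
        have := mul_le_mul_of_nonneg_right h6 hux0.le
        linarith
      linarith
    refine ⟨col ζ₀, h2 ζ₀ hζ₀, ?_⟩
    exact B3 hs hInv (hZ1 _) (hZL _) hx (Finset.mem_filter.2 ⟨hζ₀, rfl, hu0⟩) hd'

/-- persistence of the invariants -/
lemma Inv_step {s lam : ℝ} {u u' : E → ℝ} {P : E → ℂ} (hs : 0 < s) (hInv : Inv s u)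
    (hP : Good s lam u P) {θ : ℂ} (hθ : ‖θ‖ = 1)
    (hu' : ∀ z : E, u' z = u z + ((cc E : ℂ) * θ * P z).re) : Inv (s / 4) u' := by
  have hc := cc_pos E
  have hclose : ∀ z : E, ‖z‖ = 1 → |u' z - u z| ≤ u z / 4 := by
    intro z hz
    rw [hu' z]
    have e : u z + ((cc E : ℂ) * θ * P z).re - u z = ((cc E : ℂ) * θ * P z).re := by ring
    rw [e]
    refine (Complex.abs_re_le_norm _).trans ?_
    rw [norm_mul, norm_mul, hθ, Complex.norm_real, Real.norm_of_nonneg hc.le, mul_one]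
    calc cc E * ‖P z‖ ≤ cc E * (C1 E * u z) := by gcongr; exact hP.g1 z hz
      _ = (cc E * C1 E) * u z := by ring
      _ ≤ 1 / 4 * u z := by
          have := hInv.pos z hz
          have := cc_C1 E
          gcongr
      _ = _ := by ring
  have hpos : ∀ z : E, ‖z‖ = 1 → 0 < u' z := by
    intro z hz
    have h1 := (abs_le.1 (hclose z hz)).1
    have h2 := hInv.pos z hz
    linarith
  have hloc : ∀ z y : E, ‖z‖ = 1 → ‖y‖ = 1 → dd z y ≤ s / 4 →
      |u' z - u' y| ≤ 1 / 2 * Real.sqrt (dd z y / (s / 4)) * u' y := by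
    intro z y hz hy hd
    have hds : dd z y ≤ s := by linarith
    have h1 := hInv.loc z y hz hy hds
    have h2 := hP.g2 z y hz hy hds
    have hsq : Real.sqrt (dd z y / (s / 4)) = 2 * Real.sqrt (dd z y / s) := by
      have e : dd z y / (s / 4) = 4 * (dd z y / s) := by field_simp
      rw [e, Real.sqrt_mul (by norm_num)]
      congr 1
      rw [show (4 : ℝ) = 2 ^ 2 by norm_num, Real.sqrt_sq (by norm_num)]
    rw [hsq]
    set R := Real.sqrt (dd z y / s) with hR
    have hR0 : 0 ≤ R := Real.sqrt_nonneg _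
    have h3 : |u' z - u' y| ≤ |u z - u y| + cc E * ‖P z - P y‖ := by
      rw [hu' z, hu' y]
      have e : u z + ((cc E : ℂ) * θ * P z).re - (u y + ((cc E : ℂ) * θ * P y).re)
          = (u z - u y) + ((cc E : ℂ) * θ * (P z - P y)).re := by
        rw [mul_sub, Complex.sub_re]; ring
      rw [e]
      refine (abs_add_le _ _).trans ?_
      gcongr
      refine (Complex.abs_re_le_norm _).trans ?_
      rw [norm_mul, norm_mul, hθ, Complex.norm_real, Real.norm_of_nonneg hc.le, mul_one]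
    have h4 : cc E * ‖P z - P y‖ ≤ 1 / 4 * R * u y := by
      calc cc E * ‖P z - P y‖ ≤ cc E * (C2 E * R * u y) := by gcongr
        _ = (cc E * C2 E) * R * u y := by ring
        _ = _ := by rw [cc_C2]
    have h5 : u y ≤ 4 / 3 * u' y := by
      have := (abs_le.1 (hclose y hy)).1
      linarith
    have h6 : 0 < u y := hInv.pos y hy
    calc |u' z - u' y| ≤ 3 / 4 * R * u y := by linarith
      _ ≤ 3 / 4 * R * (4 / 3 * u' y) := by gcongr
      _ = _ := by ring
  refine ⟨hpos, hloc, ?_⟩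
  intro z y hz hy
  have hz1 := abs_le.1 (hclose z hz)
  have hy1 := abs_le.1 (hclose y hy)
  have hu'y := hpos y hy
  have huy := hInv.pos y hy
  have hd0 := dd_nonneg z y
  have e4 : dd z y / (s / 4) = 4 * (dd z y / s) := by field_simp
  rw [e4]
  set X := dd z y / s with hX
  have hX0 : 0 ≤ X := div_nonneg hd0 hs.le
  by_cases hc1 : dd z y ≤ s / 4
  · have h1 := hloc z y hz hy hc1
    have h2 : Real.sqrt (dd z y / (s / 4)) ≤ 1 := by
      apply Real.sqrt_le_one.2
      rw [div_le_one (by positivity)]; exact hc1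
    have h3 := (abs_le.1 h1).2
    have h4 : 1 / 2 * Real.sqrt (dd z y / (s / 4)) * u' y ≤ 1 / 2 * u' y := by
      have := mul_le_mul_of_nonneg_right h2 hu'y.le
      linarith
    nlinarith
  · push Not at hc1
    have hX1 : 1 / 4 < X := by
      rw [hX, lt_div_iff₀ hs]; linarith
    by_cases hc2 : dd z y ≤ s
    · have h1 := hInv.loc z y hz hy hc2
      have h2 : Real.sqrt (dd z y / s) ≤ 1 := by
        apply Real.sqrt_le_one.2
        rw [div_le_one hs]; exact hc2
      have h3 := (abs_le.1 h1).2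
      have h4 : 1 / 2 * Real.sqrt (dd z y / s) * u y ≤ 1 / 2 * u y := by
        have := mul_le_mul_of_nonneg_right h2 huy.le
        linarith
      have h5 : u z ≤ 3 / 2 * u y := by linarith
      have h6 : u y ≤ 4 / 3 * u' y := by linarith
      have h7 : u' z ≤ 5 / 2 * u' y := by linarith
      nlinarith
    · push Not at hc2
      have hX1' : 1 < X := by
        rw [hX, lt_div_iff₀ hs]; linarith
      have h1 := hInv.har z y hz hy
      have h6 : u y ≤ 4 / 3 * u' y := by linarith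
      have h7 : u' z ≤ 5 / 4 * u z := by linarith
      calc u' z ≤ 5 / 4 * u z := h7
        _ ≤ 5 / 4 * (2 * (1 + X) * u y) := by gcongr
        _ ≤ 5 / 4 * (2 * (1 + X) * (4 / 3 * u' y)) := by gcongr
        _ = (10 / 3 * (1 + X)) * u' y := by ring
        _ ≤ (2 * (1 + 4 * X)) * u' y := by
            apply mul_le_mul_of_nonneg_right _ hu'y.le
            linarith

/-- capped square root -/
noncomputable def phi (lam t : ℝ) : ℝ := min 1 (Real.sqrt (2 * t / lam))

lemma phi_le_one (lam t : ℝ) : phi lam t ≤ 1 := min_le_left _ _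
lemma phi_nonneg (lam t : ℝ) : 0 ≤ phi lam t := le_min zero_le_one (Real.sqrt_nonneg _)

lemma two_sqrt {u x : ℝ} (hu : 0 < u) (hx : |x| ≤ u) :
    Real.sqrt (u + x) + Real.sqrt (u - x) ≤ 2 * Real.sqrt u * (1 - x ^ 2 / (8 * u ^ 2)) := by
  obtain ⟨h1, h2⟩ := abs_le.1 hx
  have ha : 0 ≤ u + x := by linarith
  have hb : 0 ≤ u - x := by linarith
  have hx2 : x ^ 2 ≤ u ^ 2 := by nlinarith
  have hq : x ^ 2 / u ^ 2 ≤ 1 := by
    rw [div_le_one (by positivity)]; exact hx2
  have hq0 : 0 ≤ x ^ 2 / u ^ 2 := by positivity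
  set q := x ^ 2 / u ^ 2 with hqdef
  have e8 : x ^ 2 / (8 * u ^ 2) = q / 8 := by rw [hqdef]; field_simp
  rw [e8]
  have hxq : x ^ 2 = q * u ^ 2 := by rw [hqdef]; field_simp
  have hrhs : 0 ≤ 2 * Real.sqrt u * (1 - q / 8) := by
    have := Real.sqrt_nonneg u
    have : 0 ≤ 1 - q / 8 := by linarith
    positivity
  apply abs_le_of_sq_le_sq' _ hrhs |>.2
  have hprod : Real.sqrt (u + x) * Real.sqrt (u - x) ≤ u * (1 - q / 2) := by
    rw [← Real.sqrt_mul ha]
    apply Real.sqrt_le_iff.2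
    refine ⟨by nlinarith, ?_⟩
    have : (u + x) * (u - x) = u ^ 2 * (1 - q) := by
      have : (u + x) * (u - x) = u ^ 2 - x ^ 2 := by ring
      rw [this, hxq]; ring
    rw [this, mul_pow]
    apply mul_le_mul_of_nonneg_left _ (by positivity)
    nlinarith
  have hA := Real.sq_sqrt ha
  have hB := Real.sq_sqrt hb
  have hU := Real.sq_sqrt hu.le
  calc (Real.sqrt (u + x) + Real.sqrt (u - x)) ^ 2
      = Real.sqrt (u + x) ^ 2 + Real.sqrt (u - x) ^ 2 + 2 * (Real.sqrt (u + x) * Real.sqrt (u - x)) := by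
        ring
    _ ≤ 2 * u + 2 * (u * (1 - q / 2)) := by rw [hA, hB]; linarith
    _ = u * (4 - q) := by ring
    _ ≤ u * (4 * (1 - q / 8) ^ 2) := by
        apply mul_le_mul_of_nonneg_left _ hu.le
        nlinarith
    _ = (2 * Real.sqrt u * (1 - q / 8)) ^ 2 := by
        rw [mul_pow, mul_pow, hU]; ring

lemma four_sqrt {u : ℝ} {w : ℂ} (hu : 0 < u) (hw : ‖w‖ ≤ u) :
    ∑ k ∈ Finset.range 4, Real.sqrt (u + (Complex.I ^ k * w).re)
      ≤ 4 * Real.sqrt u * (1 - ‖w‖ ^ 2 / (16 * u ^ 2)) := by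
  have hre : |w.re| ≤ u := (Complex.abs_re_le_norm w).trans hw
  have him : |w.im| ≤ u := (Complex.abs_im_le_norm w).trans hw
  have h1 := two_sqrt hu hre
  have h2 := two_sqrt hu him
  have e0 : (Complex.I ^ 0 * w).re = w.re := by simp
  have e1 : (Complex.I ^ 1 * w).re = -w.im := by simp
  have e2 : (Complex.I ^ 2 * w).re = -w.re := by simp
  have e3 : (Complex.I ^ 3 * w).re = w.im := by
    have : Complex.I ^ 3 = -Complex.I := Complex.I_pow_three
    rw [this]; simp
  rw [Finset.sum_range_succ, Finset.sum_range_succ, Finset.sum_range_succ, Finset.sum_range_succ,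
    Finset.sum_range_zero, e0, e1, e2, e3]
  have hn : ‖w‖ ^ 2 = w.re ^ 2 + w.im ^ 2 := by
    rw [← Complex.normSq_eq_norm_sq, Complex.normSq_apply]; ring
  rw [hn]
  have e5 : u + -w.im = u - w.im := by ring
  have e6 : u + -w.re = u - w.re := by ring
  rw [e5, e6]
  calc 0 + Real.sqrt (u + w.re) + Real.sqrt (u - w.im) + Real.sqrt (u - w.re) + Real.sqrt (u + w.im)
      = (Real.sqrt (u + w.re) + Real.sqrt (u - w.re)) + (Real.sqrt (u + w.im) + Real.sqrt (u - w.im)) := by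
        ring
    _ ≤ _ := add_le_add h1 h2
    _ = _ := by
        field_simp
        ring

/-- gain constant -/
noncomputable def kap (E : Type*) [NormedAddCommGroup E] [InnerProductSpace ℂ E] : ℝ :=
  cc E ^ 2 / (16 * 81)

lemma kap_pos : 0 < kap E := by unfold kap; have := cc_pos E; positivity

lemma cc_le_one : cc E ≤ 1 / 4 := by
  unfold cc
  have h1 : 1 ≤ C2 E := by
    unfold C2
    have h := Cs_ge_one E
    have h2 : (1 : ℝ) ≤ 6 ^ (mm E + 1) := one_le_pow₀ (by norm_num)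
    have h3 : (0 : ℝ) ≤ mm E := Nat.cast_nonneg _
    have h4 : (1 : ℝ) ≤ 24 * ((mm E : ℝ) + 1) := by linarith
    calc (1 : ℝ) = 1 * 1 * 1 := by ring
      _ ≤ 24 * ((mm E : ℝ) + 1) * 6 ^ (mm E + 1) * Cs E := by gcongr
  rw [div_le_div_iff₀ (by linarith) (by norm_num)]
  linarith

lemma kap_lt_one : kap E < 1 := by
  unfold kap
  have h1 := cc_le_one (E := E)
  have h2 := cc_pos E
  rw [div_lt_one (by norm_num)]
  nlinarith

/-- averaging inequality at a point -/
lemma pointwise {J : ℕ} {rho lam u : ℝ} (hJ : 0 < J) (hrho : rho = 1 + kap E / J) (hlam : 0 < lam)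
    (hu : 0 < u) (P : ℕ → ℂ) (hP : ∀ j < J, cc E * ‖P j‖ ≤ u)
    (hbig : u ≤ lam / 2 → ∃ j < J, u / 9 ≤ ‖P j‖) :
    ∑ j ∈ Finset.range J, ∑ k ∈ Finset.range 4,
        phi (lam / rho ^ 2) (u + ((cc E : ℂ) * Complex.I ^ k * P j).re)
      ≤ ∑ j ∈ Finset.range J, ∑ _k ∈ Finset.range 4, phi lam u := by
  have hk := kap_pos (E := E)
  have hJ' : (0 : ℝ) < J := by exact_mod_cast hJ
  have hrho1 : 1 < rho := by rw [hrho]; have := div_pos hk hJ'; linarith
  have hrho0 : 0 < rho := by linarith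
  by_cases hcase : u ≤ lam / 2
  · obtain ⟨j₀, hj₀, hbig₀⟩ := hbig hcase
    have hphi : phi lam u = Real.sqrt (2 * u / lam) := by
      unfold phi
      apply min_eq_right
      apply Real.sqrt_le_one.2
      rw [div_le_one hlam]; linarith
    have hstep : ∀ j ∈ Finset.range J, ∑ k ∈ Finset.range 4,
        phi (lam / rho ^ 2) (u + ((cc E : ℂ) * Complex.I ^ k * P j).re)
        ≤ rho * Real.sqrt (2 / lam) * (4 * Real.sqrt u * (1 - (cc E * ‖P j‖) ^ 2 / (16 * u ^ 2))) := by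
      intro j hj
      have hPj := hP j (Finset.mem_range.1 hj)
      have hw : ‖(cc E : ℂ) * P j‖ = cc E * ‖P j‖ := by
        rw [norm_mul, Complex.norm_real, Real.norm_of_nonneg (cc_pos E).le]
      have h1 := four_sqrt (w := (cc E : ℂ) * P j) hu (by rw [hw]; exact hPj)
      rw [hw] at h1
      calc ∑ k ∈ Finset.range 4, phi (lam / rho ^ 2) (u + ((cc E : ℂ) * Complex.I ^ k * P j).re)
          ≤ ∑ k ∈ Finset.range 4, rho * Real.sqrt (2 / lam) *
              Real.sqrt (u + (Complex.I ^ k * ((cc E : ℂ) * P j)).re) := by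
            apply Finset.sum_le_sum
            intro k _
            unfold phi
            refine (min_le_right _ _).trans (le_of_eq ?_)
            have e1 : (cc E : ℂ) * Complex.I ^ k * P j = Complex.I ^ k * ((cc E : ℂ) * P j) := by ring
            rw [e1]
            set t := u + (Complex.I ^ k * ((cc E : ℂ) * P j)).re with ht
            have e2 : 2 * t / (lam / rho ^ 2) = rho ^ 2 * (2 / lam) * t := by
              field_simp
            rw [e2, Real.sqrt_mul (by positivity), Real.sqrt_mul (by positivity), Real.sqrt_sq hrho0.le]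
        _ = rho * Real.sqrt (2 / lam) * ∑ k ∈ Finset.range 4,
              Real.sqrt (u + (Complex.I ^ k * ((cc E : ℂ) * P j)).re) := by rw [Finset.mul_sum]
        _ ≤ _ := by gcongr
    refine (Finset.sum_le_sum hstep).trans ?_
    rw [← Finset.mul_sum, ← Finset.mul_sum, Finset.sum_sub_distrib]
    have hsum : kap E ≤ ∑ j ∈ Finset.range J, (cc E * ‖P j‖) ^ 2 / (16 * u ^ 2) := by
      have h2 : kap E ≤ (cc E * ‖P j₀‖) ^ 2 / (16 * u ^ 2) := by
        unfold kap
        rw [div_le_div_iff₀ (by norm_num) (by positivity)]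
        have hc := cc_pos E
        have h3 : (cc E * (u / 9)) ^ 2 ≤ (cc E * ‖P j₀‖) ^ 2 := by gcongr
        nlinarith
      refine h2.trans ?_
      exact Finset.single_le_sum (f := fun j => (cc E * ‖P j‖) ^ 2 / (16 * u ^ 2))
        (fun j _ => by positivity) (Finset.mem_range.2 hj₀)
    have hone : ∑ _j ∈ Finset.range J, (1 : ℝ) = J := by simp
    rw [hone]
    have hrhs : ∑ _j ∈ Finset.range J, ∑ _k ∈ Finset.range 4, phi lam u
        = 4 * J * (Real.sqrt (2 / lam) * Real.sqrt u) := by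
      rw [hphi]
      simp only [Finset.sum_const, Finset.card_range, nsmul_eq_mul]
      have e3 : 2 * u / lam = 2 / lam * u := by ring
      rw [e3, Real.sqrt_mul (by positivity)]
      push_cast
      ring
    rw [hrhs]
    have hfac : rho * ((J : ℝ) - ∑ j ∈ Finset.range J, (cc E * ‖P j‖) ^ 2 / (16 * u ^ 2)) ≤ J := by
      calc rho * ((J : ℝ) - ∑ j ∈ Finset.range J, (cc E * ‖P j‖) ^ 2 / (16 * u ^ 2))
          ≤ rho * ((J : ℝ) - kap E) := by gcongr
        _ = J - kap E ^ 2 / J := by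
            rw [hrho]; field_simp; ring
        _ ≤ J := by
            have : 0 ≤ kap E ^ 2 / J := by positivity
            linarith
    calc rho * Real.sqrt (2 / lam) * (4 * Real.sqrt u *
          ((J : ℝ) - ∑ j ∈ Finset.range J, (cc E * ‖P j‖) ^ 2 / (16 * u ^ 2)))
        = 4 * (Real.sqrt (2 / lam) * Real.sqrt u) * (rho *
          ((J : ℝ) - ∑ j ∈ Finset.range J, (cc E * ‖P j‖) ^ 2 / (16 * u ^ 2))) := by ring
      _ ≤ 4 * (Real.sqrt (2 / lam) * Real.sqrt u) * J := by gcongr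
      _ = _ := by ring
  · push Not at hcase
    have hphi : phi lam u = 1 := by
      unfold phi
      apply min_eq_left
      rw [Real.one_le_sqrt, le_div_iff₀ hlam]
      linarith
    apply Finset.sum_le_sum
    intro j _
    apply Finset.sum_le_sum
    intro k _
    rw [hphi]
    exact phi_le_one _ _

end Pool.Agent.Helper853.UM
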