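import Pool.Agent.Helper853.UM.One

set_option autoImplicit false

namespace Pool.Agent.Helper853.UM

open Metric MeasureTheory Module

variable {E : Type*} [NormedAddCommGroup E] [InnerProductSpace ℂ E]
  [MeasurableSpace E] [BorelSpace E]

/-- the functional -/
noncomputable def FF (μ : Measure (sphere (0 : E) 1)) (lam : ℝ) (G : E → ℂ) : ℝ :=
  ∫ x : sphere (0 : E) 1, phi lam (G (x : E)).re ∂μ

lemma phi_continuous (lam : ℝ) : Continuous (phi lam) := by
  unfold phi
  exact continuous_const.min (Real.continuous_sqrt.comp (by fun_prop))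

omit [InnerProductSpace ℂ E] [MeasurableSpace E] [BorelSpace E] in
lemma restrict_cont {G : E → ℂ} (hG : ContinuousOn G (closedBall (0 : E) 1)) :
    Continuous (fun x : sphere (0 : E) 1 => G (x : E)) :=
  hG.comp_continuous continuous_subtype_val (fun x => sphere_subset_closedBall x.2)

omit [InnerProductSpace ℂ E] in
lemma FF_integrable (μ : Measure (sphere (0 : E) 1)) [IsFiniteMeasure μ] (lam : ℝ) {G : E → ℂ}
    (hG : ContinuousOn G (closedBall (0 : E) 1)) :
    Integrable (fun x : sphere (0 : E) 1 => phi lam (G (x : E)).re) μ := by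
  have hc : Continuous (fun x : sphere (0 : E) 1 => phi lam (G (x : E)).re) :=
    (phi_continuous lam).comp (Complex.continuous_re.comp (restrict_cont hG))
  refine Integrable.of_bound hc.measurable.aestronglyMeasurable 1 ?_
  filter_upwards with x
  rw [Real.norm_of_nonneg (phi_nonneg _ _)]
  exact phi_le_one _ _

/-- properties of the update -/
structure BB (s lam : ℝ) (Q : E → ℂ) : Prop where
  b1 : ∀ z : E, ‖z‖ ≤ 1 → ‖Q z‖ ≤ C3 E * lam
  b2 : ∀ z w : E, ‖z‖ ≤ 1 → ‖w‖ ≤ 1 →
    ‖Q z - Q w‖ ≤ 2 * ((mm E : ℝ) + 1) * C3 E * (lam / s * ‖z - w‖)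
  b3 : ‖Q 0‖ ≤ 25 ^ dimc E * lam * s ^ 4
  b4 : ∀ z : E, ‖z‖ ≤ 1 → DifferentiableAt ℂ Q z

/-- the state -/
structure AA (μ : Measure (sphere (0 : E) 1)) (F0 s lam : ℝ) (G : E → ℂ) : Prop where
  a1 : ContinuousOn G (closedBall (0 : E) 1)
  a2 : Inv s (fun z => (G z).re)
  a3 : FF μ lam G ≤ F0

lemma one_step [FiniteDimensional ℂ E] [Nontrivial E] (μ : Measure (sphere (0 : E) 1))
    [IsFiniteMeasure μ] {J : ℕ} {rho s lam F0 : ℝ}
    (hJ : (1 + 12 * (LL E / (1 / ((mm E + 1 : ℕ) : ℝ)))) ^ finrank ℝ (ℂ × E) < J)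
    (hrho : rho = 1 + kap E / J) (hs : 0 < s) (hs1 : s ≤ 1) (hlam : 0 < lam) {G : E → ℂ}
    (hG : AA μ F0 s lam G) :
    ∃ Q : E → ℂ, BB s lam Q ∧ AA μ F0 (s / 4) (lam / rho ^ 2) (fun z => G z + Q z) := by
  have hL := LL_ge E
  have hJ0 : 0 < J := by
    have h1 : (0 : ℝ) ≤ (1 + 12 * (LL E / (1 / ((mm E + 1 : ℕ) : ℝ)))) ^ finrank ℝ (ℂ × E) := by
      have : 0 ≤ LL E := by linarith
      positivity
    have : (0 : ℝ) < J := lt_of_le_of_lt h1 hJ
    exact_mod_cast this
  obtain ⟨P, hP, hbig⟩ := exists_family hs hs1 hlam hG.a2 hJ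
  have hPc : ∀ j, ContinuousOn (P j) (closedBall (0 : E) 1) := by
    intro j z hz
    rw [mem_closedBall_zero_iff] at hz
    exact ((hP j).g7 z hz).continuousAt.continuousWithinAt
  set Q : ℕ → ℕ → E → ℂ := fun j k z => (cc E : ℂ) * Complex.I ^ k * P j z with hQ
  have hQc : ∀ j k, ContinuousOn (fun z => G z + Q j k z) (closedBall (0 : E) 1) :=
    fun j k => hG.a1.add (continuousOn_const.mul (hPc j))
  have hnormI : ∀ k : ℕ, ‖Complex.I ^ k‖ = 1 := by intro k; rw [norm_pow, Complex.norm_I, one_pow]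
  have hc := cc_pos E
  have hc1 := cc_le_one (E := E)
  -- choose the best pair
  have hsum : ∑ p ∈ Finset.range J ×ˢ Finset.range 4, FF μ (lam / rho ^ 2) (fun z => G z + Q p.1 p.2 z)
      ≤ ∑ _p ∈ Finset.range J ×ˢ Finset.range 4, FF μ lam G := by
    have i1 : ∀ p ∈ Finset.range J ×ˢ Finset.range 4, Integrable
        (fun x : sphere (0 : E) 1 => phi (lam / rho ^ 2) (G (x : E) + Q p.1 p.2 (x : E)).re) μ :=
      fun p _ => FF_integrable μ _ (hQc p.1 p.2)
    have i2 : ∀ p ∈ Finset.range J ×ˢ Finset.range 4, Integrable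
        (fun x : sphere (0 : E) 1 => phi lam (G (x : E)).re) μ :=
      fun p _ => FF_integrable μ _ hG.a1
    have e1 := integral_finsetSum (Finset.range J ×ˢ Finset.range 4) i1
    have e2 := integral_finsetSum (Finset.range J ×ˢ Finset.range 4) i2
    unfold FF
    rw [← e1, ← e2]
    apply integral_mono
    · exact integrable_finsetSum _ i1
    · exact integrable_finsetSum _ i2
    · intro x
      have hx : ‖(x : E)‖ = 1 := by
        have := x.2; rwa [mem_sphere_zero_iff_norm] at this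
      have hux := hG.a2.pos x hx
      simp only at hux ⊢
      rw [Finset.sum_product, Finset.sum_product]
      have hpt := pointwise (E := E) (J := J) (rho := rho) (lam := lam) hJ0 hrho hlam hux
        (fun j => P j x) (by
          intro j _
          have h1 := (hP j).g1 x hx
          calc cc E * ‖P j x‖ ≤ cc E * (C1 E * (G x).re) := by gcongr
            _ = (cc E * C1 E) * (G x).re := by ring
            _ ≤ 1 / 4 * (G x).re := by
                have := cc_C1 E
                gcongr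
            _ ≤ (G x).re := by linarith) (fun h => hbig x hx h)
      refine le_trans (le_of_eq ?_) hpt
      apply Finset.sum_congr rfl
      intro j _
      apply Finset.sum_congr rfl
      intro k _
      rw [hQ]
      simp only [Complex.add_re]
  have hne : (Finset.range J ×ˢ Finset.range 4).Nonempty := by
    refine ⟨(0, 0), ?_⟩
    rw [Finset.mem_product, Finset.mem_range, Finset.mem_range]
    exact ⟨hJ0, by norm_num⟩
  obtain ⟨⟨j, k⟩, _, hjk⟩ := Finset.exists_le_of_sum_le hne hsum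
  refine ⟨Q j k, ?_, ?_⟩
  · have hn : ∀ z : E, ‖Q j k z‖ = cc E * ‖P j z‖ := by
      intro z
      rw [hQ]
      simp only
      rw [norm_mul, norm_mul, hnormI, Complex.norm_real, Real.norm_of_nonneg hc.le, mul_one]
    have hle : ∀ a : ℝ, 0 ≤ a → cc E * a ≤ a := by
      intro a ha
      nlinarith
    constructor
    · intro z hz
      rw [hn]
      exact (hle _ (norm_nonneg _)).trans ((hP j).g4 z hz)
    · intro z w hz hw
      have e : Q j k z - Q j k w = (cc E : ℂ) * Complex.I ^ k * (P j z - P j w) := by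
        rw [hQ]; ring
      rw [e, norm_mul, norm_mul, hnormI, Complex.norm_real, Real.norm_of_nonneg hc.le, mul_one]
      exact (hle _ (norm_nonneg _)).trans ((hP j).g5 z w hz hw)
    · rw [hn]
      exact (hle _ (norm_nonneg _)).trans (hP j).g6
    · intro z hz
      exact ((hP j).g7 z hz).const_mul _
  · constructor
    · exact hQc j k
    · apply Inv_step hs hG.a2 (hP j) (hnormI k)
      intro z
      rw [Complex.add_re]
    · exact hjk.trans hG.a3

/-- scales -/
noncomputable def sk (s0 : ℝ) (k : ℕ) : ℝ := s0 / 4 ^ k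
/-- levels -/
noncomputable def lk (l0 rho : ℝ) (k : ℕ) : ℝ := l0 / (rho ^ 2) ^ k

/-- the whole sequence of updates -/
lemma exists_updates [FiniteDimensional ℂ E] [Nontrivial E] (μ : Measure (sphere (0 : E) 1))
    [IsFiniteMeasure μ] {J : ℕ} {rho s0 l0 F0 : ℝ}
    (hJ : (1 + 12 * (LL E / (1 / ((mm E + 1 : ℕ) : ℝ)))) ^ finrank ℝ (ℂ × E) < J)
    (hrho : rho = 1 + kap E / J) (hs : 0 < s0) (hs1 : s0 ≤ 1) (hl : 0 < l0) {G0 : E → ℂ}
    (hG : AA μ F0 s0 l0 G0) :
    ∃ Q : ℕ → E → ℂ, (∀ k, BB (sk s0 k) (lk l0 rho k) (Q k)) ∧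
      ∀ k, AA μ F0 (sk s0 k) (lk l0 rho k) (fun z => G0 z + ∑ i ∈ Finset.range k, Q i z) := by
  have hL := LL_ge E
  have hJ0 : (0 : ℝ) < J := by
    have h1 : (0 : ℝ) ≤ (1 + 12 * (LL E / (1 / ((mm E + 1 : ℕ) : ℝ)))) ^ finrank ℝ (ℂ × E) := by
      have : 0 ≤ LL E := by linarith
      positivity
    exact lt_of_le_of_lt h1 hJ
  have hrho0 : 0 < rho := by
    rw [hrho]
    have := div_pos (kap_pos (E := E)) hJ0
    linarith
  have hsk : ∀ k, 0 < sk s0 k ∧ sk s0 k ≤ 1 := by
    intro k
    unfold sk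
    constructor
    · positivity
    · rw [div_le_one (by positivity)]
      exact hs1.trans (one_le_pow₀ (by norm_num))
  have hlk : ∀ k, 0 < lk l0 rho k := by intro k; unfold lk; positivity
  have step : ∀ (k : ℕ) (G : E → ℂ), AA μ F0 (sk s0 k) (lk l0 rho k) G →
      ∃ Q : E → ℂ, BB (sk s0 k) (lk l0 rho k) Q ∧
        AA μ F0 (sk s0 (k + 1)) (lk l0 rho (k + 1)) (fun z => G z + Q z) := by
    intro k G hGk
    obtain ⟨Q, h1, h2⟩ := one_step μ hJ hrho (hsk k).1 (hsk k).2 (hlk k) hGk
    refine ⟨Q, h1, ?_⟩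
    have e1 : sk s0 (k + 1) = sk s0 k / 4 := by unfold sk; rw [pow_succ]; field_simp
    have e2 : lk l0 rho (k + 1) = lk l0 rho k / rho ^ 2 := by unfold lk; rw [pow_succ]; field_simp
    rw [e1, e2]
    exact h2
  choose! Qf hQ1 hQ2 using step
  have h00 : AA μ F0 (sk s0 0) (lk l0 rho 0) G0 := by
    have e1 : sk s0 0 = s0 := by unfold sk; simp
    have e2 : lk l0 rho 0 = l0 := by unfold lk; simp
    rw [e1, e2]; exact hG
  let st : ℕ → (E → ℂ) := fun k => Nat.rec G0 (fun k G => fun z => G z + Qf k G z) k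
  have hst : ∀ k, AA μ F0 (sk s0 k) (lk l0 rho k) (st k) := by
    intro k
    induction k with
    | zero => exact h00
    | succ k ih => exact hQ2 k (st k) ih
  have hsum : ∀ k, st k = fun z => G0 z + ∑ i ∈ Finset.range k, Qf i (st i) z := by
    intro k
    induction k with
    | zero => funext z; simp [st]
    | succ k ih =>
      funext z
      have e : st (k + 1) z = st k z + Qf k (st k) z := rfl
      rw [e, Finset.sum_range_succ, ← add_assoc]
      congr 1
      exact congrFun ih z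
  refine ⟨fun k => Qf k (st k), fun k => hQ1 k (st k) (hst k), ?_⟩
  intro k
  have := hst k
  rw [hsum k] at this
  exact this

end Pool.Agent.Helper853.UM
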