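import Pool.Agent.Helper853.UM.Ker
import Pool.Agent.Helper853.UM.Net

set_option autoImplicit false

namespace Pool.Agent.Helper853.UM

open Metric MeasureTheory Module

section consts

variable (E : Type*) [NormedAddCommGroup E] [InnerProductSpace ℂ E]

/-- real dimension of `ℂ × E` -/
noncomputable def dimc : ℕ := finrank ℝ (ℂ × E)
/-- exponent minus one -/
noncomputable def mm : ℕ := dimc E + 3
noncomputable def Cs : ℝ := 2 * 13 ^ dimc E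
noncomputable def C1 : ℝ := 2 ^ (mm E + 2) * Cs E
noncomputable def C2 : ℝ := 24 * ((mm E : ℝ) + 1) * 6 ^ (mm E + 1) * Cs E
noncomputable def C3 : ℝ := 4 ^ (mm E + 1) * Cs E
noncomputable def cc : ℝ := 1 / (4 * C2 E)
noncomputable def LL : ℝ := 36 * 2 ^ (mm E + 2) * Cs E

lemma Cs_pos : 0 < Cs E := by unfold Cs; positivity
lemma Cs_ge_one : 1 ≤ Cs E := by
  unfold Cs
  have : (1 : ℝ) ≤ 13 ^ dimc E := one_le_pow₀ (by norm_num)
  linarith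
lemma C1_pos : 0 < C1 E := by unfold C1; have := Cs_pos E; positivity
lemma C2_pos : 0 < C2 E := by unfold C2; have := Cs_pos E; positivity
lemma C3_pos : 0 < C3 E := by unfold C3; have := Cs_pos E; positivity
lemma cc_pos : 0 < cc E := by unfold cc; have := C2_pos E; positivity
lemma LL_ge : 4 ≤ LL E := by
  unfold LL
  have h1 := Cs_ge_one E
  have h2 : (1 : ℝ) ≤ 2 ^ (mm E + 2) := one_le_pow₀ (by norm_num)
  nlinarith
lemma C1_le_C2 : C1 E ≤ C2 E := by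
  unfold C1 C2
  have h1 := Cs_pos E
  apply mul_le_mul_of_nonneg_right _ h1.le
  have h2 : (2 : ℝ) ^ (mm E + 2) = 2 * 2 ^ (mm E + 1) := by ring
  rw [h2]
  have h3 : (2 : ℝ) ^ (mm E + 1) ≤ 6 ^ (mm E + 1) := by gcongr; norm_num
  have h4 : (0 : ℝ) ≤ mm E := Nat.cast_nonneg _
  have h5 : (0 : ℝ) ≤ 6 ^ (mm E + 1) := by positivity
  nlinarith
lemma cc_C2 : cc E * C2 E = 1 / 4 := by
  unfold cc
  have := (C2_pos E).ne'
  field_simp
lemma cc_C1 : cc E * C1 E ≤ 1 / 4 := by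
  rw [← cc_C2 E]
  exact mul_le_mul_of_nonneg_left (C1_le_C2 E) (cc_pos E).le

end consts

variable {E : Type*} [NormedAddCommGroup E] [InnerProductSpace ℂ E]

/-- the invariants at scale `s` -/
structure Inv (s : ℝ) (u : E → ℝ) : Prop where
  pos : ∀ z : E, ‖z‖ = 1 → 0 < u z
  loc : ∀ z y : E, ‖z‖ = 1 → ‖y‖ = 1 → dd z y ≤ s → |u z - u y| ≤ 1 / 2 * Real.sqrt (dd z y / s) * u y
  har : ∀ z y : E, ‖z‖ = 1 → ‖y‖ = 1 → u z ≤ 2 * (1 + dd z y / s) * u y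

/-- the sum of bumps -/
noncomputable def Psum (Z : Finset E) (a : E → ℝ) (s : ℝ) (z : E) : ℂ :=
  ∑ ζ ∈ Z, (a ζ : ℂ) * Kn (mm E + 1) s ζ z

section bounds

variable [FiniteDimensional ℂ E] {Z : Finset E} {u : E → ℝ} {s : ℝ}

omit [FiniteDimensional ℂ E] in
lemma term_bound (hs : 0 < s) (hInv : Inv s u) {ζ z : E} (hζ : ‖ζ‖ = 1) (hz : ‖z‖ = 1) :
    u ζ * ‖Kn (mm E + 1) s ζ z‖ ≤
      2 ^ (mm E + 2) * u z * ((1 + dd z ζ / s) ^ (dimc E + 3))⁻¹ := by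
  have h1 := Kn_le (m := mm E + 1) hs hζ hz.le
  have h2 := hInv.har ζ z hζ hz
  have hX : 0 ≤ dd z ζ / s := div_nonneg (dd_nonneg _ _) hs.le
  rw [dd_comm ζ z] at h1 h2
  have hu := (hInv.pos z hz).le
  calc u ζ * ‖Kn (mm E + 1) s ζ z‖
      ≤ (2 * (1 + dd z ζ / s) * u z) * (2 ^ (mm E + 1) * ((1 + dd z ζ / s) ^ (mm E + 1))⁻¹) := by
        gcongr
    _ = _ := by
        have hY : 1 + dd z ζ / s ≠ 0 := by positivity
        have e : (1 + dd z ζ / s) ^ (mm E + 1) = (1 + dd z ζ / s) ^ (dimc E + 3) * (1 + dd z ζ / s) := by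
          rw [← pow_succ]; rfl
        rw [e, pow_succ (2 : ℝ) (mm E + 1)]
        generalize 1 + dd z ζ / s = Y at hY ⊢
        field_simp

lemma pow_inv_le {X : ℝ} (hX : 0 ≤ X) {a b : ℕ} (hab : b ≤ a) :
    ((1 + X) ^ a)⁻¹ ≤ ((1 + X) ^ b)⁻¹ := by
  apply inv_anti₀ (by positivity)
  exact pow_le_pow_right₀ (by linarith) hab

lemma B1 (hs : 0 < s) (hInv : Inv s u) (hZ : ∀ ζ ∈ Z, ‖ζ‖ = 1)
    (hsep : ∀ ζ ∈ Z, ∀ η ∈ Z, ζ ≠ η → s ≤ dd ζ η) {z : E} (hz : ‖z‖ = 1) :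
    ‖Psum Z u s z‖ ≤ C1 E * u z := by
  unfold Psum
  have hu := (hInv.pos z hz).le
  calc ‖∑ ζ ∈ Z, (u ζ : ℂ) * Kn (mm E + 1) s ζ z‖
      ≤ ∑ ζ ∈ Z, ‖(u ζ : ℂ) * Kn (mm E + 1) s ζ z‖ := norm_sum_le _ _
    _ ≤ ∑ ζ ∈ Z, 2 ^ (mm E + 2) * u z * ((1 + dd z ζ / s) ^ (dimc E + 2))⁻¹ := by
        apply Finset.sum_le_sum
        intro ζ hζ
        have hζ1 := hZ ζ hζ
        rw [norm_mul, Complex.norm_real, Real.norm_of_nonneg (hInv.pos ζ hζ1).le]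
        refine (term_bound hs hInv hζ1 hz).trans ?_
        have hX : 0 ≤ dd z ζ / s := div_nonneg (dd_nonneg _ _) hs.le
        have := pow_inv_le hX (a := dimc E + 3) (b := dimc E + 2) (by omega)
        gcongr
    _ = 2 ^ (mm E + 2) * u z * ∑ ζ ∈ Z, ((1 + dd z ζ / s) ^ (dimc E + 2))⁻¹ := by
        rw [Finset.mul_sum]
    _ ≤ 2 ^ (mm E + 2) * u z * Cs E := by
        gcongr
        exact sum_sep Z hz hs hZ hsep
    _ = _ := by unfold C1; ring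

lemma B2 (hs : 0 < s) (hInv : Inv s u) (hZ : ∀ ζ ∈ Z, ‖ζ‖ = 1)
    (hsep : ∀ ζ ∈ Z, ∀ η ∈ Z, ζ ≠ η → s ≤ dd ζ η) {z y : E} (hz : ‖z‖ = 1) (hy : ‖y‖ = 1)
    (hd : dd z y ≤ s) :
    ‖Psum Z u s z - Psum Z u s y‖ ≤ C2 E * Real.sqrt (dd z y / s) * u y := by
  unfold Psum
  have hu := (hInv.pos y hy).le
  rw [← Finset.sum_sub_distrib]
  calc ‖∑ ζ ∈ Z, ((u ζ : ℂ) * Kn (mm E + 1) s ζ z - (u ζ : ℂ) * Kn (mm E + 1) s ζ y)‖
      ≤ ∑ ζ ∈ Z, ‖(u ζ : ℂ) * Kn (mm E + 1) s ζ z - (u ζ : ℂ) * Kn (mm E + 1) s ζ y‖ :=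
        norm_sum_le _ _
    _ ≤ ∑ ζ ∈ Z, 24 * ((mm E : ℝ) + 1) * 6 ^ (mm E + 1) * Real.sqrt (dd z y / s) * u y
          * ((1 + dd y ζ / s) ^ (dimc E + 2))⁻¹ := by
        apply Finset.sum_le_sum
        intro ζ hζ
        have hζ1 := hZ ζ hζ
        have hX : 0 ≤ dd y ζ / s := div_nonneg (dd_nonneg _ _) hs.le
        rw [← mul_sub, norm_mul, Complex.norm_real, Real.norm_of_nonneg (hInv.pos ζ hζ1).le]
        have h1 := Kn_var (m := mm E) hs hζ1 hz hy hd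
        have h2 := hInv.har ζ y hζ1 hy
        rw [dd_comm ζ y] at h1 h2
        have h3 := pow_inv_le hX (a := dimc E + 3) (b := dimc E + 2) (by omega)
        calc u ζ * ‖Kn (mm E + 1) s ζ z - Kn (mm E + 1) s ζ y‖
            ≤ (2 * (1 + dd y ζ / s) * u y) * (12 * ((mm E : ℝ) + 1) * 6 ^ (mm E + 1) *
                Real.sqrt (dd z y / s) * ((1 + dd y ζ / s) ^ (mm E + 1))⁻¹) := by
              gcongr
          _ = 24 * ((mm E : ℝ) + 1) * 6 ^ (mm E + 1) * Real.sqrt (dd z y / s) * u y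
              * ((1 + dd y ζ / s) ^ (dimc E + 3))⁻¹ := by
              have e : (1 + dd y ζ / s) ^ (mm E + 1) = (1 + dd y ζ / s) ^ (dimc E + 3) * (1 + dd y ζ / s) := by
                rw [← pow_succ]; rfl
              rw [e]
              have hY : 1 + dd y ζ / s ≠ 0 := by positivity
              generalize Real.sqrt (dd z y / s) = R
              generalize 1 + dd y ζ / s = Y at hY ⊢
              field_simp
              ring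
          _ ≤ _ := by gcongr
    _ = 24 * ((mm E : ℝ) + 1) * 6 ^ (mm E + 1) * Real.sqrt (dd z y / s) * u y
          * ∑ ζ ∈ Z, ((1 + dd y ζ / s) ^ (dimc E + 2))⁻¹ := by rw [Finset.mul_sum]
    _ ≤ 24 * ((mm E : ℝ) + 1) * 6 ^ (mm E + 1) * Real.sqrt (dd z y / s) * u y * Cs E := by
        gcongr
        exact sum_sep Z hy hs hZ hsep
    _ = _ := by unfold C2; ring

lemma B3 (hs : 0 < s) (hInv : Inv s u) (hZ : ∀ ζ ∈ Z, ‖ζ‖ = 1)
    (hsep : ∀ ζ ∈ Z, ∀ η ∈ Z, ζ ≠ η → LL E * s ≤ dd ζ η) {x ζ₀ : E} (hx : ‖x‖ = 1)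
    (hζ₀ : ζ₀ ∈ Z) (hd : dd x ζ₀ ≤ s / ((mm E + 1 : ℕ) : ℝ)) :
    u x / 9 ≤ ‖Psum Z u s x‖ := by
  classical
  have hL := LL_ge E
  have hu := hInv.pos x hx
  have hζ1 := hZ ζ₀ hζ₀
  have hm : (4 : ℝ) ≤ ((mm E + 1 : ℕ) : ℝ) := by
    have : 4 ≤ mm E + 1 := by unfold mm; omega
    exact_mod_cast this
  have hd4 : dd x ζ₀ ≤ s / 4 := by
    refine hd.trans ?_
    gcongr
  have hds : dd x ζ₀ ≤ s := by linarith
  -- main term
  have hmain : 2 / 9 * u x ≤ u ζ₀ * ‖Kn (mm E + 1) s ζ₀ x‖ := by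
    have h1 := Kn_near (m := mm E + 1) (by omega) hs hζ1 hx (by rw [dd_comm]; exact hd)
    have h2 := hInv.loc x ζ₀ hx hζ1 hds
    have h3 : Real.sqrt (dd x ζ₀ / s) ≤ 1 := by
      apply Real.sqrt_le_one.2
      rw [div_le_one hs]; exact hds
    have h4 := (abs_le.1 h2).2
    have hu0 := hInv.pos ζ₀ hζ1
    have h5 : 1 / 2 * Real.sqrt (dd x ζ₀ / s) * u ζ₀ ≤ 1 / 2 * u ζ₀ := by
      have := mul_le_mul_of_nonneg_right h3 hu0.le
      linarith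
    have h6 : 2 / 3 * u x ≤ u ζ₀ := by linarith
    calc 2 / 9 * u x = (2 / 3 * u x) * (1 / 3) := by ring
      _ ≤ u ζ₀ * ‖Kn (mm E + 1) s ζ₀ x‖ := by gcongr
  -- the rest
  have hrest : ‖∑ ζ ∈ Z.erase ζ₀, (u ζ : ℂ) * Kn (mm E + 1) s ζ x‖ ≤ 1 / 9 * u x := by
    calc ‖∑ ζ ∈ Z.erase ζ₀, (u ζ : ℂ) * Kn (mm E + 1) s ζ x‖
        ≤ ∑ ζ ∈ Z.erase ζ₀, ‖(u ζ : ℂ) * Kn (mm E + 1) s ζ x‖ := norm_sum_le _ _
      _ ≤ ∑ ζ ∈ Z.erase ζ₀, 2 ^ (mm E + 2) * u x * (4 / LL E)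
            * ((1 + dd x ζ / s) ^ (dimc E + 2))⁻¹ := by
          apply Finset.sum_le_sum
          intro ζ hζ
          have hζZ := Finset.mem_of_mem_erase hζ
          have hne := Finset.ne_of_mem_erase hζ
          have hζu := hZ ζ hζZ
          rw [norm_mul, Complex.norm_real, Real.norm_of_nonneg (hInv.pos ζ hζu).le]
          refine (term_bound hs hInv hζu hx).trans ?_
          have hX : 0 ≤ dd x ζ / s := div_nonneg (dd_nonneg _ _) hs.le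
          have hfar : LL E / 4 ≤ dd x ζ / s := by
            rw [le_div_iff₀ hs]
            have h1 := hsep ζ₀ hζ₀ ζ hζZ (fun h => hne h.symm)
            have h2 := sqrt_dd_triangle hζ1 hx hζu
            have h3 : Real.sqrt (dd ζ₀ x) ≤ 1 / 2 * Real.sqrt (LL E * s) := by
              have e : 1 / 2 * Real.sqrt (LL E * s) = Real.sqrt (LL E * s / 4) := by
                rw [Real.sqrt_div (by positivity)]
                have : Real.sqrt 4 = 2 := by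
                  rw [show (4 : ℝ) = 2 ^ 2 by norm_num, Real.sqrt_sq (by norm_num)]
                rw [this]; ring
              rw [e]
              apply Real.sqrt_le_sqrt
              rw [dd_comm]
              nlinarith
            have h4 : Real.sqrt (LL E * s) ≤ Real.sqrt (dd ζ₀ ζ) := Real.sqrt_le_sqrt h1
            have h5 : 1 / 2 * Real.sqrt (LL E * s) ≤ Real.sqrt (dd x ζ) := by linarith
            have h6 : (1 / 2 * Real.sqrt (LL E * s)) ^ 2 ≤ (Real.sqrt (dd x ζ)) ^ 2 := by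
              gcongr
            rw [mul_pow, Real.sq_sqrt (by positivity), Real.sq_sqrt (dd_nonneg _ _)] at h6
            linarith
          have h7 : ((1 + dd x ζ / s) ^ (dimc E + 3))⁻¹
              ≤ (4 / LL E) * ((1 + dd x ζ / s) ^ (dimc E + 2))⁻¹ := by
            rw [pow_succ (1 + dd x ζ / s) (dimc E + 2), mul_inv, mul_comm]
            have h8 : (1 + dd x ζ / s)⁻¹ ≤ 4 / LL E := by
              rw [inv_le_comm₀ (by positivity) (by positivity), inv_div]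
              linarith
            gcongr
          calc 2 ^ (mm E + 2) * u x * ((1 + dd x ζ / s) ^ (dimc E + 3))⁻¹
              ≤ 2 ^ (mm E + 2) * u x * ((4 / LL E) * ((1 + dd x ζ / s) ^ (dimc E + 2))⁻¹) := by
                gcongr
            _ = _ := by ring
      _ = 2 ^ (mm E + 2) * u x * (4 / LL E)
            * ∑ ζ ∈ Z.erase ζ₀, ((1 + dd x ζ / s) ^ (dimc E + 2))⁻¹ := by rw [Finset.mul_sum]
      _ ≤ 2 ^ (mm E + 2) * u x * (4 / LL E) * Cs E := by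
          gcongr
          refine sum_sep (Z.erase ζ₀) hx hs (fun ζ hζ => hZ ζ (Finset.mem_of_mem_erase hζ)) ?_
          intro ζ hζ η hη hne
          have := hsep ζ (Finset.mem_of_mem_erase hζ) η (Finset.mem_of_mem_erase hη) hne
          nlinarith
      _ = 1 / 9 * u x := by
          unfold LL
          have := (Cs_pos E).ne'
          field_simp
          ring
  have hsplit : Psum Z u s x = (u ζ₀ : ℂ) * Kn (mm E + 1) s ζ₀ x
      + ∑ ζ ∈ Z.erase ζ₀, (u ζ : ℂ) * Kn (mm E + 1) s ζ x := by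
    unfold Psum
    exact (Finset.add_sum_erase Z (fun ζ => (u ζ : ℂ) * Kn (mm E + 1) s ζ x) hζ₀).symm
  rw [hsplit]
  have hn : ‖(u ζ₀ : ℂ) * Kn (mm E + 1) s ζ₀ x‖ = u ζ₀ * ‖Kn (mm E + 1) s ζ₀ x‖ := by
    rw [norm_mul, Complex.norm_real, Real.norm_of_nonneg (hInv.pos ζ₀ hζ1).le]
  have htri := norm_sub_le_norm_add ((u ζ₀ : ℂ) * Kn (mm E + 1) s ζ₀ x)
    (∑ ζ ∈ Z.erase ζ₀, (u ζ : ℂ) * Kn (mm E + 1) s ζ x)
  rw [hn] at htri
  linarith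

omit [FiniteDimensional ℂ E] in
lemma exists_radial [Nontrivial E] (z : E) (hz : ‖z‖ ≤ 1) :
    ∃ z' : E, ‖z'‖ = 1 ∧ ∀ ζ : E, ‖ζ‖ = 1 → dd ζ z' ≤ 2 * dd ζ z := by
  obtain ⟨z', hz'1, r, hr0, hr1, hrz⟩ : ∃ z' : E, ‖z'‖ = 1 ∧ ∃ r : ℝ, 0 ≤ r ∧ r ≤ 1 ∧ z = (r : ℂ) • z' := by
    by_cases h0 : z = 0
    · obtain ⟨v, hv⟩ := exists_ne (0 : E)
      have hv' : (‖v‖ : ℂ) ≠ 0 := by exact_mod_cast norm_ne_zero_iff.2 hv
      refine ⟨((‖v‖ : ℂ)⁻¹) • v, ?_, 0, le_rfl, zero_le_one, by rw [h0]; simp⟩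
      rw [norm_smul, norm_inv, Complex.norm_real, norm_norm]
      exact inv_mul_cancel₀ (norm_ne_zero_iff.2 hv)
    · have hz' : (‖z‖ : ℂ) ≠ 0 := by exact_mod_cast norm_ne_zero_iff.2 h0
      refine ⟨((‖z‖ : ℂ)⁻¹) • z, ?_, ‖z‖, norm_nonneg _, hz, ?_⟩
      · rw [norm_smul, norm_inv, Complex.norm_real, norm_norm]
        exact inv_mul_cancel₀ (norm_ne_zero_iff.2 h0)
      · rw [smul_smul, mul_inv_cancel₀ hz', one_smul]
  refine ⟨z', hz'1, ?_⟩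
  intro ζ hζ
  unfold dd
  rw [hrz, inner_smul_right]
  set w : ℂ := inner ℂ ζ z' with hw
  have hw1 : ‖w‖ ≤ 1 := by
    calc ‖w‖ ≤ ‖ζ‖ * ‖z'‖ := norm_inner_le_norm ζ z'
      _ = 1 := by rw [hζ, hz'1]; norm_num
  have h1 : ‖(1 : ℂ) - w‖ ≤ ‖(1 : ℂ) - (r : ℂ) * w‖ + (1 - r) := by
    have e : (1 : ℂ) - w = (1 - (r : ℂ) * w) - ((1 - r : ℝ) : ℂ) * w := by push_cast; ring
    rw [e]
    refine (norm_sub_le _ _).trans ?_
    rw [norm_mul, Complex.norm_real, Real.norm_of_nonneg (by linarith)]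
    nlinarith
  have h2 : 1 - r ≤ ‖(1 : ℂ) - (r : ℂ) * w‖ := by
    have := norm_sub_norm_le (1 : ℂ) ((r : ℂ) * w)
    rw [norm_one, norm_mul, Complex.norm_real, Real.norm_of_nonneg hr0] at this
    nlinarith
  linarith

lemma sum_Kn [Nontrivial E] (hs : 0 < s) (hZ : ∀ ζ ∈ Z, ‖ζ‖ = 1)
    (hsep : ∀ ζ ∈ Z, ∀ η ∈ Z, ζ ≠ η → s ≤ dd ζ η) {z : E} (hz : ‖z‖ ≤ 1) :
    ∑ ζ ∈ Z, ‖Kn (mm E + 1) s ζ z‖ ≤ C3 E := by
  obtain ⟨z', hz', hrad⟩ := exists_radial z hz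
  calc ∑ ζ ∈ Z, ‖Kn (mm E + 1) s ζ z‖
      ≤ ∑ ζ ∈ Z, 4 ^ (mm E + 1) * ((1 + dd z' ζ / s) ^ (dimc E + 2))⁻¹ := by
        apply Finset.sum_le_sum
        intro ζ hζ
        have hζ1 := hZ ζ hζ
        have h1 := Kn_le (m := mm E + 1) hs hζ1 hz
        have h2 := hrad ζ hζ1
        have hX : 0 ≤ dd z' ζ / s := div_nonneg (dd_nonneg _ _) hs.le
        have h3 : (1 + dd z' ζ / s) / 2 ≤ 1 + dd ζ z / s := by
          rw [dd_comm z' ζ]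
          have : dd ζ z' / s ≤ 2 * (dd ζ z / s) := by
            rw [← mul_div_assoc]; gcongr
          linarith
        have h4 : ((1 + dd ζ z / s) ^ (mm E + 1))⁻¹ ≤ 2 ^ (mm E + 1) * ((1 + dd z' ζ / s) ^ (mm E + 1))⁻¹ := by
          calc ((1 + dd ζ z / s) ^ (mm E + 1))⁻¹ ≤ (((1 + dd z' ζ / s) / 2) ^ (mm E + 1))⁻¹ := by
                apply inv_anti₀ (by positivity)
                gcongr
            _ = _ := by rw [div_pow, inv_div]; ring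
        have h5 := pow_inv_le hX (a := mm E + 1) (b := dimc E + 2) (by unfold mm; omega)
        calc ‖Kn (mm E + 1) s ζ z‖ ≤ 2 ^ (mm E + 1) * ((1 + dd ζ z / s) ^ (mm E + 1))⁻¹ := h1
          _ ≤ 2 ^ (mm E + 1) * (2 ^ (mm E + 1) * ((1 + dd z' ζ / s) ^ (dimc E + 2))⁻¹) := by
              gcongr
              refine h4.trans ?_
              gcongr
          _ = _ := by
              rw [← mul_assoc, ← mul_pow]; norm_num
    _ = 4 ^ (mm E + 1) * ∑ ζ ∈ Z, ((1 + dd z' ζ / s) ^ (dimc E + 2))⁻¹ := by rw [Finset.mul_sum]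
    _ ≤ 4 ^ (mm E + 1) * Cs E := by
        gcongr
        exact sum_sep Z hz' hs hZ hsep
    _ = _ := rfl

lemma B4 [Nontrivial E] (hs : 0 < s) (hZ : ∀ ζ ∈ Z, ‖ζ‖ = 1)
    (hsep : ∀ ζ ∈ Z, ∀ η ∈ Z, ζ ≠ η → s ≤ dd ζ η) {lam : ℝ}
    (hu : ∀ ζ ∈ Z, |u ζ| ≤ lam) {z : E} (hz : ‖z‖ ≤ 1) :
    ‖Psum Z u s z‖ ≤ C3 E * lam ∨ Z = ∅ := by
  by_cases hZe : Z = ∅
  · right; exact hZe
  left
  obtain ⟨ζ₁, hζ₁⟩ := Finset.nonempty_iff_ne_empty.2 hZe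
  have hlam : 0 ≤ lam := (abs_nonneg _).trans (hu ζ₁ hζ₁)
  unfold Psum
  calc ‖∑ ζ ∈ Z, (u ζ : ℂ) * Kn (mm E + 1) s ζ z‖
      ≤ ∑ ζ ∈ Z, ‖(u ζ : ℂ) * Kn (mm E + 1) s ζ z‖ := norm_sum_le _ _
    _ ≤ ∑ ζ ∈ Z, lam * ‖Kn (mm E + 1) s ζ z‖ := by
        apply Finset.sum_le_sum
        intro ζ hζ
        rw [norm_mul, Complex.norm_real, Real.norm_eq_abs]
        have := hu ζ hζ
        gcongr
    _ = lam * ∑ ζ ∈ Z, ‖Kn (mm E + 1) s ζ z‖ := by rw [Finset.mul_sum]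
    _ ≤ lam * C3 E := by gcongr; exact sum_Kn hs hZ hsep hz
    _ = _ := by ring

lemma B4' [Nontrivial E] (hs : 0 < s) (hZ : ∀ ζ ∈ Z, ‖ζ‖ = 1)
    (hsep : ∀ ζ ∈ Z, ∀ η ∈ Z, ζ ≠ η → s ≤ dd ζ η) {lam : ℝ} (hlam : 0 ≤ lam)
    (hu : ∀ ζ ∈ Z, |u ζ| ≤ lam) {z : E} (hz : ‖z‖ ≤ 1) :
    ‖Psum Z u s z‖ ≤ C3 E * lam := by
  rcases B4 hs hZ hsep hu hz with h | h
  · exact h
  · unfold Psum
    rw [h, Finset.sum_empty, norm_zero]
    have := C3_pos E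
    positivity

lemma B5 [Nontrivial E] (hs : 0 < s) (hZ : ∀ ζ ∈ Z, ‖ζ‖ = 1)
    (hsep : ∀ ζ ∈ Z, ∀ η ∈ Z, ζ ≠ η → s ≤ dd ζ η) {lam : ℝ} (hlam : 0 ≤ lam)
    (hu : ∀ ζ ∈ Z, |u ζ| ≤ lam) {z w : E} (hz : ‖z‖ ≤ 1) (hw : ‖w‖ ≤ 1) :
    ‖Psum Z u s z - Psum Z u s w‖ ≤ 2 * ((mm E : ℝ) + 1) * C3 E * (lam / s * ‖z - w‖) := by
  unfold Psum
  rw [← Finset.sum_sub_distrib]
  calc ‖∑ ζ ∈ Z, ((u ζ : ℂ) * Kn (mm E + 1) s ζ z - (u ζ : ℂ) * Kn (mm E + 1) s ζ w)‖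
      ≤ ∑ ζ ∈ Z, ‖(u ζ : ℂ) * Kn (mm E + 1) s ζ z - (u ζ : ℂ) * Kn (mm E + 1) s ζ w‖ :=
        norm_sum_le _ _
    _ ≤ ∑ ζ ∈ Z, lam * (((mm E : ℝ) + 1) / s * ‖z - w‖
          * (‖Kn (mm E + 1) s ζ z‖ + ‖Kn (mm E + 1) s ζ w‖)) := by
        apply Finset.sum_le_sum
        intro ζ hζ
        rw [← mul_sub, norm_mul, Complex.norm_real, Real.norm_eq_abs]
        have h1 := hu ζ hζ
        have h2 := Kn_lip (m := mm E) hs (hZ ζ hζ) hz hw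
        gcongr
    _ = lam * (((mm E : ℝ) + 1) / s * ‖z - w‖) *
          (∑ ζ ∈ Z, ‖Kn (mm E + 1) s ζ z‖ + ∑ ζ ∈ Z, ‖Kn (mm E + 1) s ζ w‖) := by
        rw [← Finset.sum_add_distrib, Finset.mul_sum]
        apply Finset.sum_congr rfl
        intro ζ _
        ring
    _ ≤ lam * (((mm E : ℝ) + 1) / s * ‖z - w‖) * (C3 E + C3 E) := by
        gcongr
        · exact sum_Kn hs hZ hsep hz
        · exact sum_Kn hs hZ hsep hw
    _ = _ := by ring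

lemma B6 [Nontrivial E] (hs : 0 < s) (hs1 : s ≤ 1) (hZ : ∀ ζ ∈ Z, ‖ζ‖ = 1)
    (hsep : ∀ ζ ∈ Z, ∀ η ∈ Z, ζ ≠ η → s ≤ dd ζ η) {lam : ℝ} (hlam : 0 ≤ lam)
    (hu : ∀ ζ ∈ Z, |u ζ| ≤ lam) :
    ‖Psum Z u s 0‖ ≤ 25 ^ dimc E * lam * s ^ 4 := by
  unfold Psum
  obtain ⟨z', hz', _⟩ := exists_radial (0 : E) (by simp)
  have hcard : (Z.card : ℝ) ≤ (25 / s) ^ dimc E := by
    have := pack_sphere Z hz' hs (t := 2) (by norm_num) hZ hsep
      (fun ζ hζ => dd_le_two hz' (hZ ζ hζ).le)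
    refine this.trans ?_
    have : 1 + 12 * (2 / s) ≤ 25 / s := by
      rw [← mul_div_assoc, ← sub_nonneg]
      have e : 25 / s - (1 + 12 * 2 / s) = (1 - s) / s := by field_simp; ring
      rw [e]
      apply div_nonneg (by linarith) hs.le
    unfold dimc
    gcongr
  calc ‖∑ ζ ∈ Z, (u ζ : ℂ) * Kn (mm E + 1) s ζ 0‖
      ≤ ∑ ζ ∈ Z, ‖(u ζ : ℂ) * Kn (mm E + 1) s ζ 0‖ := norm_sum_le _ _
    _ ≤ ∑ ζ ∈ Z, lam * s ^ (mm E + 1) := by
        apply Finset.sum_le_sum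
        intro ζ hζ
        rw [norm_mul, Complex.norm_real, Real.norm_eq_abs]
        have h1 := hu ζ hζ
        have h2 := Kn_zero (m := mm E + 1) hs ζ
        gcongr
    _ = Z.card * (lam * s ^ (mm E + 1)) := by rw [Finset.sum_const, nsmul_eq_mul]
    _ ≤ (25 / s) ^ dimc E * (lam * s ^ (mm E + 1)) := by gcongr
    _ = _ := by
        have e : s ^ (mm E + 1) = s ^ dimc E * s ^ 4 := by
          rw [← pow_add]; rfl
        rw [e, div_pow]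
        field_simp

end bounds

end Pool.Agent.Helper853.UM
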