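import Pool.Agent.Helper287.LP.I2
import Pool.Agent.Helper287.LP.Surf

set_option autoImplicit false

open MeasureTheory Metric Set

namespace Pool.Agent.Helper853.UM

open Pool.Agent.Helper287.MB in
/-- helper287's theorem, unbundled -/
theorem no_lip (n : ℕ) (hn : 2 ≤ n) (α : ℝ) (hα : 1 / (n : ℝ) ≤ α)
    (f : EuclideanSpace ℂ (Fin n) → ℂ) (hc : ContinuousOn f (closedBall 0 1))
    (hd : DifferentiableOn ℂ f (ball 0 1))
    (hb : ∀ z ∈ closedBall (0 : EuclideanSpace ℂ (Fin n)) 1, ‖f z‖ ≤ 1) (h0 : f 0 = 0)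
    (hpos : 0 < (volume : Measure (EuclideanSpace ℂ (Fin n))).toSphere
      {ζ : sphere (0 : EuclideanSpace ℂ (Fin n)) 1 | ‖f ζ‖ = 1}) (C : ℝ)
    (hL : ∀ z ∈ closedBall (0 : EuclideanSpace ℂ (Fin n)) 1,
    ∀ w ∈ closedBall (0 : EuclideanSpace ℂ (Fin n)) 1, ‖f z - f w‖ ≤ C * ‖z - w‖ ^ α) : False := by
  have hne : Nonempty (Fin n) := ⟨⟨0, by omega⟩⟩
  have hnt : Nontrivial (EuclideanSpace ℂ (Fin n)) := by infer_instance
  have hfr : Module.finrank ℂ (EuclideanSpace ℂ (Fin n)) = n := finrank_euclideanSpace_fin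
  have hσ := isSph_toSphere n (by omega)
  -- strict bound inside
  have hlt : ∀ z, ‖z‖ < 1 → ‖f z‖ < 1 := by
    intro z hz
    have hz1 : z ∈ ball (0 : EuclideanSpace ℂ (Fin n)) 1 := mem_ball_zero_iff.2 hz
    refine lt_of_le_of_ne (hb z (ball_subset_closedBall hz1)) (fun he => ?_)
    have hmax : IsMaxOn (norm ∘ f) (ball 0 1) z := by
      intro w hw
      simp only [mem_setOf_eq, Function.comp_apply, he]
      exact hb w (ball_subset_closedBall hw)
    have h3 := Complex.norm_eqOn_of_isPreconnected_of_isMaxOn (convex_ball _ _).isPreconnected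
      isOpen_ball hd hz1 hmax (mem_ball_self one_pos)
    simp only [Function.comp_apply, Function.const_apply, h0, norm_zero, he] at h3
    exact zero_ne_one h3
  -- the constant may be taken nonnegative
  have hL' : ∀ z w : EuclideanSpace ℂ (Fin n), ‖z‖ ≤ 1 → ‖w‖ ≤ 1 →
      ‖f z - f w‖ ≤ |C| * ‖z - w‖ ^ α := by
    intro z w hz hw
    refine (hL z (mem_closedBall_zero_iff.2 hz) w (mem_closedBall_zero_iff.2 hw)).trans ?_
    exact mul_le_mul_of_nonneg_right (le_abs_self C) (Real.rpow_nonneg (norm_nonneg _) _)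
  set μ := (volume : Measure (EuclideanSpace ℂ (Fin n))) with hμ
  have hpos' : 0 < ((μ.toSphere univ)⁻¹ • (μ.toSphere.map Subtype.val)) (UM f) := by
    rw [Measure.smul_apply, smul_eq_mul]
    have h1 : (μ.toSphere univ)⁻¹ ≠ 0 := ENNReal.inv_ne_zero.2 (measure_ne_top _ _)
    have h2 : μ.toSphere {ζ : sphere (0 : EuclideanSpace ℂ (Fin n)) 1 | ‖f ζ‖ = 1}
        ≤ (μ.toSphere.map Subtype.val) (UM f) := by
      refine le_trans (measure_mono ?_)
        (Measure.le_map_apply measurable_subtype_coe.aemeasurable _)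
      intro ζ hζ
      exact ⟨by simpa using mem_sphere_zero_iff_norm.1 ζ.2, hζ⟩
    exact ENNReal.mul_pos h1 (hpos.trans_le h2).ne'
  exact main_lip _ hσ (by rw [hfr]; exact hn) f hc hd hlt (abs_nonneg C)
    (by rw [hfr]; exact hα) hL' hpos'

end Pool.Agent.Helper853.UM
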